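import Pool.Agent.Helper50.SQ.Foelner
import Pool.Agent.Helper18.SQ.Cov
import Pool.Agent.Helper18.SQ.RankDual
import Pool.Agent.Helper18.SQ.Ind
import Pool.Agent.SQ.OreCond

/-!
# Project MP_984acc_SQ, stage 2: comparison with skew fields of fractions of amenable quotients

`Datum Γ S`: a homomorphism `π : Γ → Q` to a group of polynomial growth which is nontrivial on the nontrivial elements of
`S`, and a skew field `D` of characteristic two with a homomorphism `u : Q → Dˣ` whose values are linearly independent.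

* `vdim_le_of_datum`: the von Neumann dimension of the solutions of a linear system over `ℤ[Γ]` is at most `d`, if for every
  finite set `S` there is a datum such that the solutions in `D` have dimension at most `d`;
* `van_of_datum`: if the cohomology in degree `i` with coefficients in `D` vanishes for data with arbitrarily large `S`, then
  the `ℓ²`-homology in degree `i` vanishes.
-/

set_option autoImplicit false
set_option linter.unusedSectionVars false

open scoped ComplexConjugate InnerProductSpace Pointwise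

namespace SQ.T2

open Singer Singer.Ord Pool.Agent.Helper16.Cmp Pool.Agent.Helper18.SQ

/-! ### coordinate subspaces -/

section coord
variable {Γ : Type} [Group Γ] {ι : Type} [Fintype ι]

/-- the functions which vanish on the coordinates of `T` -/
def off (Γ : Type) [Group Γ] {ι : Type} (T : Finset ι) : Submodule ℂ (E Γ ι) where
  carrier := {f | ∀ g, ∀ i ∈ T, f (g, i) = 0}
  zero_mem' := fun g i _ => by simp
  add_mem' := fun {f h} hf hh g i hi => by
    show f (g, i) + h (g, i) = 0
    rw [hf g i hi, hh g i hi, add_zero]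
  smul_mem' := fun a f hf g i hi => by
    show a * f (g, i) = 0
    rw [hf g i hi, mul_zero]

omit [Fintype ι] in
theorem mem_off {T : Finset ι} {f : E Γ ι} : f ∈ off Γ T ↔ ∀ g, ∀ i ∈ T, f (g, i) = 0 := Iff.rfl

omit [Fintype ι] in
theorem continuous_apply' (g : Γ) (i : ι) : Continuous fun f : E Γ ι => f (g, i) := by
  have h3 : (fun f : E Γ ι => f (g, i)) = fun f => ⟪del g i, f⟫_ℂ := by
    funext f
    rw [inner_del_left]
  rw [h3]
  exact continuous_const.inner continuous_id

omit [Fintype ι] in
theorem mdl_off (T : Finset ι) : Mdl (off Γ T) := by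
  refine ⟨fun h f hf g i hi => ?_, ?_⟩
  · rw [lam_apply]
    exact hf _ i hi
  · have : (off Γ T : Set (E Γ ι)) = ⋂ (g : Γ) (i : ι) (_ : i ∈ T), {f : E Γ ι | f (g, i) = 0} := by
      ext f
      simp only [SetLike.mem_coe, mem_off, Set.mem_iInter, Set.mem_ofPred_eq]
    rw [this]
    exact isClosed_iInter fun g => isClosed_iInter fun i => isClosed_iInter fun _ =>
      isClosed_eq (continuous_apply' g i) continuous_const

theorem vdim_off (T : Finset ι) : vdim (off Γ T) = Fintype.card ι - T.card := by
  classical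
  unfold vdim
  have h : ∀ j : ι, ‖prj (off Γ T) (del 1 j)‖ ^ 2 = if j ∈ T then (0 : ℝ) else 1 := by
    intro j
    by_cases hj : j ∈ T
    · rw [if_pos hj]
      have h1 : prj (off Γ T) (del (1 : Γ) j) = 0 := by
        refine prj_unique (Submodule.zero_mem _) ?_
        rw [sub_zero, Submodule.mem_orthogonal]
        intro f hf
        rw [inner_del_right, hf 1 j hj, map_zero]
      rw [h1]
      simp
    · rw [if_neg hj]
      have h1 : del (1 : Γ) j ∈ off Γ T := by
        intro g i hi
        have hij : i ≠ j := fun h => hj (h ▸ hi)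
        unfold del
        rw [lp.single_apply_ne]
        intro h
        exact hij (congrArg Prod.snd h)
      rw [prj_eq_of_mem ((off Γ T).le_topologicalClosure h1)]
      unfold del
      rw [lp.norm_single (by norm_num)]
      simp
  rw [Finset.sum_congr rfl fun j _ => h j, Finset.sum_ite, Finset.sum_const_zero, zero_add, Finset.sum_const,
    nsmul_eq_mul, mul_one]
  have h3 : (Finset.univ.filter fun j => j ∉ T) = Finset.univ \ T := by
    ext j
    simp
  rw [h3, Finset.card_sdiff_of_subset (Finset.subset_univ T), Finset.card_univ,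
    Nat.cast_sub (Finset.card_le_univ T)]

omit [Fintype ι] in
theorem mdl_solL {κ J : Type} [Fintype ι] [Fintype J] (c : κ → ι → J → ℤ) (s : J → Γ) (W : Submodule ℂ (E Γ ι))
    (hW : (W : Set (E Γ ι)) = SolL c s) : Mdl W := by
  refine ⟨fun h f hf => ?_, ?_⟩
  · have h1 : f ∈ SolL c s := by rw [← hW]; exact hf
    have h2 : lam h f ∈ SolL c s := by
      intro g k
      have h3 := h1 (h⁻¹ * g) k
      rw [← h3]
      refine Finset.sum_congr rfl fun i _ => Finset.sum_congr rfl fun j _ => ?_
      rw [lam_apply, mul_assoc]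
    rw [← hW] at h2
    exact h2
  · rw [hW]
    have : SolL c s = ⋂ (g : Γ) (k : κ), {f : E Γ ι | ∑ i, ∑ j, (c k i j : ℂ) * f (g * s j, i) = 0} := by
      ext f
      simp [SolL]
    rw [this]
    refine isClosed_iInter fun g => isClosed_iInter fun k => ?_
    refine isClosed_eq ?_ continuous_const
    exact continuous_finsetSum _ fun i _ => continuous_finsetSum _ fun j _ =>
      continuous_const.mul (continuous_apply' _ _)

end coord

/-! ### growth -/

theorem halving {Q : Type} [Group Q] (h : PolyGrowth Q) : Fo.Halving Q := by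
  classical
  intro S
  obtain ⟨n, hn⟩ := OreCond.exists_small h (insert 1 S) (Finset.mem_insert_self _ _)
  refine ⟨(insert 1 S) ^ (n + 1), (insert 1 S) ^ n, ?_, ?_, ?_, ?_⟩
  · exact Finset.Nonempty.pow ⟨1, Finset.mem_insert_self _ _⟩
  · intro q hq
    rw [pow_succ]
    rw [Finset.mem_mul]
    exact ⟨q, hq, 1, Finset.mem_insert_self _ _, mul_one q⟩
  · intro q hq s hs
    rw [pow_succ, Finset.mem_mul]
    exact ⟨q, hq, s, Finset.mem_insert_of_mem hs, rfl⟩
  · exact hn.le

/-! ### coordinates which separate a subspace -/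

theorem exists_coords {D : Type*} [DivisionRing D] {M : Type*} [AddCommGroup M] [Module D M] [FiniteDimensional D M]
    {ι : Type} [Fintype ι] [DecidableEq ι] (f : ι → M →ₗ[D] D) (hf : ∀ m, (∀ i, f i m = 0) → m = 0) :
    ∃ T : Finset ι, T.card ≤ Module.finrank D M ∧ ∀ m, (∀ i ∈ T, f i m = 0) → m = 0 := by
  have key : ∀ n : ℕ, ∀ T : Finset ι, Module.finrank D (⨅ i ∈ T, LinearMap.ker (f i) : Submodule D M) ≤ n →
      ∃ T' : Finset ι, T'.card ≤ T.card + n ∧ ∀ m, (∀ i ∈ T', f i m = 0) → m = 0 := by
    intro n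
    induction n with
    | zero =>
      intro T hT
      refine ⟨T, le_rfl, fun m hm => ?_⟩
      have h1 : (⨅ i ∈ T, LinearMap.ker (f i) : Submodule D M) = ⊥ := Submodule.finrank_eq_zero.1 (Nat.le_zero.1 hT)
      have h2 : m ∈ (⨅ i ∈ T, LinearMap.ker (f i) : Submodule D M) := by
        simp only [Submodule.mem_iInf, LinearMap.mem_ker]
        exact hm
      rw [h1] at h2
      exact (Submodule.mem_bot D).1 h2
    | succ n ih =>
      intro T hT
      by_cases h0 : (⨅ i ∈ T, LinearMap.ker (f i) : Submodule D M) = ⊥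
      · refine ⟨T, by omega, fun m hm => ?_⟩
        have h2 : m ∈ (⨅ i ∈ T, LinearMap.ker (f i) : Submodule D M) := by
          simp only [Submodule.mem_iInf, LinearMap.mem_ker]
          exact hm
        rw [h0] at h2
        exact (Submodule.mem_bot D).1 h2
      · obtain ⟨m, hm, hm0⟩ := Submodule.exists_mem_ne_zero_of_ne_bot h0
        obtain ⟨i, hi⟩ : ∃ i, f i m ≠ 0 := by
          by_contra hcon
          push Not at hcon
          exact hm0 (hf m hcon)
        have hlt : Module.finrank D (⨅ j ∈ insert i T, LinearMap.ker (f j) : Submodule D M) <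
            Module.finrank D (⨅ j ∈ T, LinearMap.ker (f j) : Submodule D M) := by
          refine Submodule.finrank_lt_finrank_of_lt (lt_of_le_of_ne ?_ ?_)
          · refine le_iInf₂ fun j hj => iInf₂_le j (Finset.mem_insert_of_mem hj)
          · intro h
            rw [← h] at hm
            simp only [Submodule.mem_iInf, LinearMap.mem_ker] at hm
            exact hi (hm i (Finset.mem_insert_self _ _))
        obtain ⟨T', h1, h2⟩ := ih (insert i T) (by omega)
        exact ⟨T', by have := Finset.card_insert_le i T; omega, h2⟩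
  obtain ⟨T, h1, h2⟩ := key (Module.finrank D M) ∅ (by
    simpa using Submodule.finrank_le _)
  exact ⟨T, by simpa using h1, h2⟩

/-! ### data -/

/-- a quotient of polynomial growth with a skew field of fractions of its group algebra modulo two -/
structure Datum (Γ : Type) [Group Γ] (S : Finset Γ) where
  Q : Type
  [grp : Group Q]
  π : Γ →* Q
  sep : ∀ g ∈ S, g ≠ 1 → π g ≠ 1
  growth : PolyGrowth Q
  D : Type
  [div : DivisionRing D]
  [alg : Algebra (ZMod 2) D]
  u : Q →* Dˣ
  li : LinearIndependent (ZMod 2) (fun g : Q => ((u g : Dˣ) : D))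

attribute [instance] Datum.grp Datum.div Datum.alg

/-- a datum for a larger set is a datum for a smaller set -/
def Datum.mono {Γ : Type} [Group Γ] {S S' : Finset Γ} (h : S ⊆ S') (A : Datum Γ S') : Datum Γ S :=
  { A with sep := fun g hg => A.sep g (h hg) }

/-- the action on the skew field by left multiplications -/
def Datum.act {Γ : Type} [Group Γ] {S : Finset Γ} (A : Datum Γ S) (g : Γ) : A.D →ₗ[A.Dᵐᵒᵖ] A.D :=
  lm ((A.u (A.π g) : A.Dˣ) : A.D)

/-- the pigeonhole principle for finitely many antitone predicates -/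
theorem pigeon {α β : Type*} [Finite α] (P : α → Finset β → Prop) (hP : ∀ a S S', S ⊆ S' → P a S' → P a S)
    (h : ∀ S, ∃ a, P a S) : ∃ a, ∀ S, P a S := by
  classical
  have := Fintype.ofFinite α
  by_contra hcon
  push Not at hcon
  choose S hS using hcon
  obtain ⟨a, ha⟩ := h (Finset.univ.biUnion S)
  exact hS a (hP a _ _ (Finset.subset_biUnion_of_mem S (Finset.mem_univ a)) ha)

section main
variable {Γ : Type} [Group Γ] {κ ι J : Type} [Fintype κ] [Fintype ι] [Fintype J]

/-- injectivity on finitely supported functions -/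
theorem Datum.inj {S : Finset Γ} (A : Datum Γ S) (c : κ → ι → J → ℤ) (s : J → Γ) (T : Finset ι)
    (hT : ∀ m ∈ SolD c (fun j => A.act (s j)), (∀ i ∈ T, m i = 0) → m = 0)
    (φ : A.Q × ι →₀ ZMod 2) (h1 : ∀ g k, ∑ i, ∑ j, (c k i j : ZMod 2) * φ (g * A.π (s j), i) = 0)
    (h2 : ∀ g, ∀ i ∈ T, φ (g, i) = 0) : φ = 0 := by
  classical
  -- the finitely supported components
  obtain ⟨F, hF⟩ : ∃ F : Finset A.Q, ∀ g i, φ (g, i) ≠ 0 → g ∈ F :=
    ⟨φ.support.image Prod.fst, fun g i h => Finset.mem_image.2 ⟨(g, i), Finsupp.mem_support_iff.2 h, rfl⟩⟩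
  let ψ : ι → (A.Q →₀ ZMod 2) := fun i => Finsupp.onFinset F (fun g => φ (g, i)) (fun g h => hF g i h)
  have hψ : ∀ i g, ψ i g = φ (g, i) := fun i g => rfl
  -- the map to `D`
  let L : (A.Q →₀ ZMod 2) →ₗ[ZMod 2] A.D := Finsupp.linearCombination (ZMod 2) fun g => ((A.u g⁻¹ : A.Dˣ) : A.D)
  have hLi : Function.Injective L := by
    have h3 : LinearIndependent (ZMod 2) (fun g : A.Q => ((A.u g⁻¹ : A.Dˣ) : A.D)) :=
      A.li.comp (fun g : A.Q => g⁻¹) inv_injective
    exact h3
  -- translations
  have hLt : ∀ (t : A.Q) (f : A.Q →₀ ZMod 2), ((A.u t : A.Dˣ) : A.D) * L f =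
      L (f.mapDomain fun g => g * t⁻¹) := by
    intro t f
    induction f using Finsupp.induction_linear with
    | zero => simp
    | add f g hf hg => rw [map_add, mul_add, hf, hg, Finsupp.mapDomain_add, map_add]
    | single g z =>
      simp only [L]
      rw [Finsupp.linearCombination_single, Finsupp.mapDomain_single, Finsupp.linearCombination_single,
        mul_smul_comm, ← Units.val_mul, ← map_mul]
      congr 3
      simp
  have hmem : (fun i => L (ψ i)) ∈ SolD c (fun j => A.act (s j)) := by
    rw [mem_SolD]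
    intro k
    have h4 : ∑ i, ∑ j, c k i j • A.act (s j) (L (ψ i)) =
        L (∑ i, ∑ j, (c k i j : ZMod 2) • (ψ i).mapDomain fun g => g * (A.π (s j))⁻¹) := by
      rw [map_sum]
      refine Finset.sum_congr rfl fun i _ => ?_
      rw [map_sum]
      refine Finset.sum_congr rfl fun j _ => ?_
      rw [map_smul, ← hLt]
      show c k i j • (((A.u (A.π (s j)) : A.Dˣ) : A.D) * L (ψ i)) = _
      rw [Int.cast_smul_eq_zsmul]
    rw [h4]
    have h5 : (∑ i, ∑ j, (c k i j : ZMod 2) • (ψ i).mapDomain fun g => g * (A.π (s j))⁻¹) = 0 := by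
      ext g
      rw [Finsupp.finsetSum_apply, Finsupp.zero_apply, ← h1 g k]
      refine Finset.sum_congr rfl fun i _ => ?_
      rw [Finsupp.finsetSum_apply]
      refine Finset.sum_congr rfl fun j _ => ?_
      rw [Finsupp.smul_apply, smul_eq_mul]
      congr 1
      have h6 : g = (fun x => x * (A.π (s j))⁻¹) (g * A.π (s j)) := by simp
      conv_lhs => rw [h6]
      rw [Finsupp.mapDomain_apply (mul_left_injective _), hψ]
    rw [h5, map_zero]
  have h7 := hT _ hmem (by
    intro i hi
    have : ψ i = 0 := by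
      ext g
      rw [hψ, h2 g i hi]
      rfl
    show L (ψ i) = 0
    rw [this, map_zero])
  ext ⟨g, i⟩
  have h8 : L (ψ i) = 0 := congrFun h7 i
  have h9 : ψ i = 0 := hLi (by rw [h8, map_zero])
  rw [← hψ, h9]
  rfl

/-- **comparison** -/
theorem vdim_le_of_datum (c : κ → ι → J → ℤ) (s : J → Γ) (W : Submodule ℂ (E Γ ι))
    (hW : (W : Set (E Γ ι)) = SolL c s) (d : ℕ)
    (H : ∀ S : Finset Γ, ∃ A : Datum Γ S, Module.finrank A.Dᵐᵒᵖ (SolD c (fun j => A.act (s j))) ≤ d) :
    vdim W ≤ d := by
  classical
  -- the coordinates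
  obtain ⟨T, hT⟩ : ∃ T : Finset ι, ∀ S : Finset Γ, ∃ A : Datum Γ S, T.card ≤ d ∧
      ∀ m ∈ SolD c (fun j => A.act (s j)), (∀ i ∈ T, m i = 0) → m = 0 := by
    refine pigeon (fun (T : Finset ι) (S : Finset Γ) => ∃ A : Datum Γ S, T.card ≤ d ∧
      ∀ m ∈ SolD c (fun j => A.act (s j)), (∀ i ∈ T, m i = 0) → m = 0) ?_ ?_
    · rintro T S S' hS ⟨A, h1, h2⟩
      exact ⟨A.mono hS, h1, h2⟩
    · intro S
      obtain ⟨A, hA⟩ := H S
      obtain ⟨T, hT1, hT2⟩ := exists_coords (D := A.Dᵐᵒᵖ) (M := SolD c (fun j => A.act (s j)))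
        (fun i => ((LinearEquiv.refl A.Dᵐᵒᵖ A.Dᵐᵒᵖ : A.Dᵐᵒᵖ →ₗ[A.Dᵐᵒᵖ] A.Dᵐᵒᵖ).comp
          ((show A.D →ₗ[A.Dᵐᵒᵖ] A.Dᵐᵒᵖ from
            { toFun := fun x => MulOpposite.op x
              map_add' := fun x y => rfl
              map_smul' := fun a x => rfl }).comp
            ((LinearMap.proj i).comp (SolD c (fun j => A.act (s j))).subtype)))) (by
          intro m hm
          apply Subtype.ext
          funext i
          have := hm i
          exact MulOpposite.op_injective this)
      refine ⟨T, A, hT1.trans hA, fun m hm hm0 => ?_⟩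
      have := hT2 ⟨m, hm⟩ (fun i hi => by
        show MulOpposite.op (m i) = 0
        rw [hm0 i hi]
        rfl)
      exact congrArg Subtype.val this
  have hTd : T.card ≤ d := by
    obtain ⟨A, h, -⟩ := hT ∅
    exact h
  -- the intersection with the coordinate subspace
  have hMW := mdl_solL c s W hW
  have hMT := mdl_off (Γ := Γ) T
  have hzero : vdim (W ⊓ off Γ T) = 0 := by
    let c' : (κ ⊕ ι) → ι → (J ⊕ Unit) → ℤ := fun k i j => match k, j with
      | Sum.inl k, Sum.inl j => c k i j
      | Sum.inl _, Sum.inr _ => 0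
      | Sum.inr _, Sum.inl _ => 0
      | Sum.inr i', Sum.inr _ => if i' ∈ T ∧ i' = i then 1 else 0
    let s' : (J ⊕ Unit) → Γ := fun j => match j with
      | Sum.inl j => s j
      | Sum.inr _ => 1
    refine Fo.vdim_eq_zero c' s' (W ⊓ off Γ T) ?_ ?_
    · ext f
      rw [Submodule.coe_inf]
      constructor
      · rintro ⟨h1, h2⟩
        rw [hW] at h1
        rintro g (k | i')
        · have h3 := h1 g k
          simp only [Fintype.sum_sum_type, c', s', Int.cast_zero, zero_mul, Finset.sum_const_zero, add_zero]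
          exact h3
        · simp only [Fintype.sum_sum_type, c', s', Int.cast_zero, zero_mul, Finset.sum_const_zero, zero_add,
            Finset.univ_unique, Finset.sum_singleton, mul_one]
          refine Finset.sum_eq_zero fun i _ => ?_
          split_ifs with h
          · rw [← h.2, h2 g i' h.1, mul_zero]
          · simp
      · intro h
        refine ⟨?_, ?_⟩
        · rw [hW]
          intro g k
          have h3 := h g (Sum.inl k)
          simp only [Fintype.sum_sum_type, c', s', Int.cast_zero, zero_mul, Finset.sum_const_zero, add_zero] at h3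
          exact h3
        · intro g i hi
          have h3 := h g (Sum.inr i)
          simp only [Fintype.sum_sum_type, c', s', Int.cast_zero, zero_mul, Finset.sum_const_zero, zero_add,
            Finset.univ_unique, Finset.sum_singleton, mul_one] at h3
          rw [Finset.sum_eq_single i] at h3
          · simpa [hi] using h3
          · intro i' _ hne
            rw [if_neg (fun h' => hne h'.2.symm)]
            simp
          · intro h'
            exact absurd (Finset.mem_univ _) h'
    · intro S hS
      obtain ⟨A, -, hA⟩ := hT S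
      refine ⟨A.Q, A.grp, A.π, fun g hg => A.sep g hg (fun h => hS (h ▸ hg)), halving A.growth, fun φ hφ => ?_⟩
      refine A.inj c s T hA φ (fun g k => ?_) (fun g i hi => ?_)
      · have h3 := hφ g (Sum.inl k)
        simp only [Fintype.sum_sum_type, c', s', Int.cast_zero, zero_mul, Finset.sum_const_zero, add_zero] at h3
        exact h3
      · have h3 := hφ g (Sum.inr i)
        simp only [Fintype.sum_sum_type, c', s', Int.cast_zero, zero_mul, Finset.sum_const_zero, zero_add,
          Finset.univ_unique, Finset.sum_singleton, map_one, mul_one] at h3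
        rw [Finset.sum_eq_single i] at h3
        · simpa [hi] using h3
        · intro i' _ hne
          rw [if_neg (fun h' => hne h'.2.symm)]
          simp
        · intro h'
          exact absurd (Finset.mem_univ _) h'
  have h1 := vdim_sup_add_inf hMW.inv hMT.inv hMW.cl hMT.cl
  rw [hzero, add_zero, vdim_off] at h1
  have h2 : vdim (W ⊔ off Γ T) ≤ Fintype.card ι := by
    rw [← vdim_top (Γ := Γ) (ι := ι)]
    exact vdim_mono le_top
  have h4 : (T.card : ℝ) ≤ d := by exact_mod_cast hTd
  linarith

end main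

/-- **vanishing** -/
theorem van_of_datum {Γ : Type} [Group Γ] (R : FinRes Γ) (i : ℕ)
    (H : ∀ S : Finset Γ, ∃ A : Datum Γ S, CoV R A.act i) : R.VanE i := by
  classical
  rw [← R.betti_eq_zero_iff]
  refine le_antisymm ?_ (R.betti_nonneg i)
  cases i with
  | zero =>
    rw [betti_zero]
    have := vdim_le_of_datum (cA (R.d 0)) (sA (R.d 0)) (cok (R.d 0)) (cok_eq_solL (R.d 0)) 0 (fun S => by
      obtain ⟨A, hA⟩ := H S
      refine ⟨A, ?_⟩
      have h1 : SolD (cA (R.d 0)) (fun j => A.act (sA (R.d 0) j)) = LinearMap.ker (cobd A.act (R.d 0)) :=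
        solD_eq A.act (R.d 0)
      have h2 : LinearMap.ker (cobd A.act (R.d 0)) = ⊥ := by
        rw [eq_bot_iff]
        intro y hy
        exact hA y hy
      rw [h1, h2, finrank_bot])
    simpa using this
  | succ i =>
    rw [betti_succ]
    -- the pair of dimensions
    have hpair : ∃ p : Fin (Fintype.card (R.ι (i + 1)) + 1) × Fin (Fintype.card (R.ι i) + 1), ∀ S : Finset Γ,
        ∃ A : Datum Γ S, Module.finrank A.Dᵐᵒᵖ (LinearMap.ker (cobd A.act (R.d (i + 1)))) = p.1 ∧
          Module.finrank A.Dᵐᵒᵖ (LinearMap.ker (cobd A.act (R.d i))) = p.2 ∧ (p.1 : ℕ) + p.2 ≤ Fintype.card (R.ι i) := by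
      refine pigeon (fun (p : Fin (Fintype.card (R.ι (i + 1)) + 1) × Fin (Fintype.card (R.ι i) + 1)) (S : Finset Γ) =>
        ∃ A : Datum Γ S, Module.finrank A.Dᵐᵒᵖ (LinearMap.ker (cobd A.act (R.d (i + 1)))) = p.1 ∧
          Module.finrank A.Dᵐᵒᵖ (LinearMap.ker (cobd A.act (R.d i))) = p.2 ∧ (p.1 : ℕ) + p.2 ≤ Fintype.card (R.ι i))
        ?_ ?_
      · rintro p S S' hS ⟨A, h⟩
        exact ⟨A.mono hS, h⟩
      · intro S
        obtain ⟨A, hA⟩ := H S
        have h3 : Module.finrank A.Dᵐᵒᵖ (LinearMap.ker (cobd A.act (R.d (i + 1)))) ≤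
            Module.finrank A.Dᵐᵒᵖ (LinearMap.range (cobd A.act (R.d i))) := by
          refine Submodule.finrank_mono ?_
          intro y hy
          exact hA y hy
        have h4 := LinearMap.finrank_range_add_finrank_ker (cobd A.act (R.d i))
        have h5 : ∀ m, Module.finrank A.Dᵐᵒᵖ (R.ι m → A.D) = Fintype.card (R.ι m) := by
          intro m
          rw [Module.finrank_pi_fintype, Finset.sum_const, Finset.card_univ, smul_eq_mul, finrank_op, mul_one]
        rw [h5] at h4
        have h6 : Module.finrank A.Dᵐᵒᵖ (LinearMap.ker (cobd A.act (R.d (i + 1)))) ≤ Fintype.card (R.ι (i + 1)) := by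
          rw [← h5]
          exact Submodule.finrank_le _
        refine ⟨(⟨_, Nat.lt_succ_of_le h6⟩, ⟨Module.finrank A.Dᵐᵒᵖ (LinearMap.ker (cobd A.act (R.d i))), by omega⟩), A,
          rfl, rfl, ?_⟩
        simp only
        omega
    obtain ⟨p, hp⟩ := hpair
    have hsum : (p.1 : ℕ) + p.2 ≤ Fintype.card (R.ι i) := by
      obtain ⟨A, -, -, h⟩ := hp ∅
      exact h
    have e1 := vdim_le_of_datum (cA (R.d (i + 1))) (sA (R.d (i + 1))) (cok (R.d (i + 1)))
      (cok_eq_solL (R.d (i + 1))) p.1 (fun S => by
        obtain ⟨A, h1, -, -⟩ := hp S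
        refine ⟨A, ?_⟩
        have h2 : SolD (cA (R.d (i + 1))) (fun j => A.act (sA (R.d (i + 1)) j)) =
          LinearMap.ker (cobd A.act (R.d (i + 1))) := solD_eq A.act (R.d (i + 1))
        rw [h2, h1])
    have e2 := vdim_le_of_datum (cA (R.d i)) (sA (R.d i)) (cok (R.d i)) (cok_eq_solL (R.d i)) p.2 (fun S => by
        obtain ⟨A, -, h1, -⟩ := hp S
        refine ⟨A, ?_⟩
        have h2 : SolD (cA (R.d i)) (fun j => A.act (sA (R.d i) j)) =
          LinearMap.ker (cobd A.act (R.d i)) := solD_eq A.act (R.d i)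
        rw [h2, h1])
    have hsum' : ((p.1 : ℕ) : ℝ) + ((p.2 : ℕ) : ℝ) ≤ Fintype.card (R.ι i) := by exact_mod_cast hsum
    linarith

end SQ.T2
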