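import Pool.Agent.Helper42.SQ.ResDown

/-!
# SQ, second stage: a group with a resolution by finitely generated free modules is finitely generated
-/

set_option autoImplicit false

open scoped Matrix

namespace SQ.T2

open Singer Singer.h42

section
variable {K : Type} [Group K] (H : Subgroup K)

open Classical in
/-- the sum of the coefficients on a subgroup -/
noncomputable def lamH : MonoidAlgebra ℤ K →+ ℤ where
  toFun x := x.coeff.sum fun g n => if g ∈ H then n else 0
  map_zero' := by
    show Finsupp.sum (0 : K →₀ ℤ) _ = 0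
    exact Finsupp.sum_zero_index
  map_add' x y := by
    rw [MonoidAlgebra.coeff_add]
    exact Finsupp.sum_add_index' (fun g => by split_ifs <;> rfl) (fun g a b => by split_ifs <;> simp)

open Classical in
theorem lamH_single (g : K) (n : ℤ) : lamH H (MonoidAlgebra.single g n) = if g ∈ H then n else 0 := by
  show Finsupp.sum (MonoidAlgebra.single g n).coeff (fun g n => if g ∈ H then n else 0) = _
  rw [MonoidAlgebra.coeff_single]
  exact Finsupp.sum_single_index (by split_ifs <;> rfl)

open Classical in
theorem lamH_mul (a s : MonoidAlgebra ℤ K) (hs : ∀ g ∈ s.coeff.support, g ∈ H) :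
    lamH H (a * s) = lamH H a * sumc K s := by
  induction a using MonoidAlgebra.induction_linear with
  | zero => rw [zero_mul, map_zero, zero_mul]
  | add f g hf hg => rw [add_mul, map_add, map_add, add_mul, hf, hg]
  | single g n =>
    have h1 : MonoidAlgebra.single g n * s = ∑ h ∈ s.coeff.support, MonoidAlgebra.single (g * h) (n * s.coeff h) := by
      conv_lhs => rw [← s.sum_coeff_single, Finsupp.sum, Finset.mul_sum]
      exact Finset.sum_congr rfl fun h _ => MonoidAlgebra.single_mul_single _ _ _ _
    rw [h1, map_sum, lamH_single, sumc_apply, Finset.mul_sum]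
    refine Finset.sum_congr rfl fun h hh => ?_
    rw [lamH_single]
    have h2 : g * h ∈ H ↔ g ∈ H := Subgroup.mul_mem_cancel_right H (hs h hh)
    by_cases h3 : g ∈ H
    · rw [if_pos h3, if_pos (h2.2 h3)]
    · rw [if_neg h3, if_neg fun h4 => h3 (h2.1 h4), zero_mul]

theorem sumc_single_mul (g : K) (s : MonoidAlgebra ℤ K) : sumc K (MonoidAlgebra.single g 1 * s) = sumc K s := by
  induction s using MonoidAlgebra.induction_linear with
  | zero => rw [mul_zero]
  | add f g hf hg => rw [mul_add, map_add, map_add, hf, hg]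
  | single h n => rw [MonoidAlgebra.single_mul_single, sumc_single, sumc_single, one_mul]

end

/-- finite generation -/
theorem fg_of_finRes {K : Type} [Group K] (R : FinRes K) : ∃ S : Finset K, Subgroup.closure (S : Set K) = ⊤ := by
  classical
  obtain ⟨x0, hx0⟩ := R.surj
  let S : Finset K := (Finset.univ.biUnion fun l => (x0 l).coeff.support) ∪
    (Finset.univ.biUnion fun k => Finset.univ.biUnion fun l => (R.d 0 k l).coeff.support)
  refine ⟨S, ?_⟩
  set H := Subgroup.closure (S : Set K) with hH
  have hS1 : ∀ l, ∀ g ∈ (x0 l).coeff.support, g ∈ H := fun l g hg =>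
    Subgroup.subset_closure (Finset.mem_coe.2 (Finset.mem_union_left _
      (Finset.mem_biUnion.2 ⟨l, Finset.mem_univ _, hg⟩)))
  have hS2 : ∀ k l, ∀ g ∈ (R.d 0 k l).coeff.support, g ∈ H := fun k l g hg =>
    Subgroup.subset_closure (Finset.mem_coe.2 (Finset.mem_union_right _
      (Finset.mem_biUnion.2 ⟨k, Finset.mem_univ _, Finset.mem_biUnion.2 ⟨l, Finset.mem_univ _, hg⟩⟩)))
  have haug : ∀ x : R.ι 0 → MonoidAlgebra ℤ K, augw R.w x = ∑ l, R.w l * sumc K (x l) := fun x => rfl
  rw [eq_top_iff]
  intro g _
  let z : R.ι 0 → MonoidAlgebra ℤ K := fun l => MonoidAlgebra.single g 1 * x0 l - x0 l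
  have hz : augw R.w z = 0 := by
    rw [haug]
    refine Finset.sum_eq_zero fun l _ => ?_
    show R.w l * sumc K (MonoidAlgebra.single g 1 * x0 l - x0 l) = 0
    rw [map_sub, sumc_single_mul, sub_self, mul_zero]
  obtain ⟨y, hy⟩ := (R.exact_zero z).1 hz
  have hrow : ∀ k, ∑ l, R.w l * sumc K (R.d 0 k l) = 0 := by
    intro k
    have h1 := (R.exact_zero (R.d 0 k)).2 ⟨Pi.single k 1, by
      rw [Matrix.single_one_vecMul]
      rfl⟩
    rw [← h1, haug]
  have e1 : ∑ l, R.w l * lamH H (z l) = (if g ∈ H then 1 else 0) - 1 := by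
    have h1 : ∀ l, lamH H (z l) = ((if g ∈ H then 1 else 0) - 1) * sumc K (x0 l) := by
      intro l
      show lamH H (MonoidAlgebra.single g 1 * x0 l - x0 l) = _
      have h2 : lamH H (x0 l) = sumc K (x0 l) := by
        have h3 := lamH_mul H 1 (x0 l) (hS1 l)
        rw [one_mul, MonoidAlgebra.one_def, lamH_single, if_pos H.one_mem, one_mul] at h3
        exact h3
      rw [map_sub, lamH_mul H _ _ (hS1 l), lamH_single, h2, sub_mul, one_mul]
    simp only [h1]
    have h4 : ∑ l, R.w l * (((if g ∈ H then 1 else 0) - 1) * sumc K (x0 l)) =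
        ((if g ∈ H then 1 else 0) - 1) * ∑ l, R.w l * sumc K (x0 l) := by
      rw [Finset.mul_sum]
      exact Finset.sum_congr rfl fun l _ => by ring
    rw [h4, ← haug, hx0, mul_one]
  have e2 : ∑ l, R.w l * lamH H (z l) = 0 := by
    have h1 : ∀ l, lamH H (z l) = ∑ k, lamH H (y k) * sumc K (R.d 0 k l) := by
      intro l
      rw [← hy]
      show lamH H (∑ k, y k * R.d 0 k l) = _
      rw [map_sum]
      exact Finset.sum_congr rfl fun k _ => lamH_mul H _ _ (hS2 k l)
    simp only [h1, Finset.mul_sum]
    rw [Finset.sum_comm]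
    refine Finset.sum_eq_zero fun k _ => ?_
    have h2 : ∑ l, R.w l * (lamH H (y k) * sumc K (R.d 0 k l)) = lamH H (y k) * ∑ l, R.w l * sumc K (R.d 0 k l) := by
      rw [Finset.mul_sum]
      exact Finset.sum_congr rfl fun l _ => by ring
    rw [h2, hrow, mul_zero]
  rw [e2] at e1
  by_contra hg
  rw [if_neg hg] at e1
  norm_num at e1

/-- countability -/
theorem countable_of_finRes {K : Type} [Group K] (R : FinRes K) : Countable K := by
  obtain ⟨S, hS⟩ := fg_of_finRes R
  have h1 : Function.Surjective (FreeGroup.lift (fun s : S => (s : K))) := by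
    rw [← MonoidHom.range_eq_top, FreeGroup.range_lift_eq_closure, Subtype.range_coe_subtype]
    exact hS
  have h2 : Countable (FreeGroup S) := by
    unfold FreeGroup
    infer_instance
  exact h1.countable

end SQ.T2
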