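import Pool.Agent.SQ.T2.Ultra2
import Pool.Agent.Helper18.SQ.Ind
import Pool.Agent.Helper18.SQ.RankDual

/-!
# SQ, second stage: linear systems over the ultraproduct and over its factors
-/

set_option autoImplicit false

noncomputable section

namespace SQ.T2

open Filter SQ.Ultra Pool.Agent.Helper18.SQ Pool.Agent.Helper16.Cmp

theorem card_le_sub {D : Type} [DivisionRing D] {ι α : Type} [Fintype ι] [Fintype α] (W : Submodule Dᵐᵒᵖ (ι → D))
    (f : α → W) (h : LinearIndependent Dᵐᵒᵖ f) : Fintype.card α ≤ Module.finrank Dᵐᵒᵖ W :=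
  h.fintype_card_le_finrank

section
variable {K : Type} [Group K] (S : DivSeq K) {κ ι J : Type} [Fintype ι] [Fintype J]

/-- the solutions over the `n`-th factor -/
abbrev solF (c : κ → ι → J → ℤ) (s : J → K) (n : ℕ) : Submodule (S.D n)ᵐᵒᵖ (ι → S.D n) :=
  SolD c (fun j => lm (((S.u n (s j) : (S.D n)ˣ) : S.D n)))

/-- the solutions over the ultraproduct -/
abbrev solU (c : κ → ι → J → ℤ) (s : J → K) : Submodule (UDS S)ᵐᵒᵖ (ι → UDS S) :=
  SolD c (fun j => lm (((hom S.u : K →* (UDS S)ˣ) (s j) : (UDS S)ˣ) : UDS S))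

theorem mem_solU [Finite κ] {c : κ → ι → J → ℤ} {s : J → K} (y : ι → ∀ n, S.D n) :
    (fun i => mk U0 S.D (y i)) ∈ solU S c s ↔ ∀ᶠ n in (U0 : Filter ℕ), (fun i => y i n) ∈ solF S c s n := by
  rw [mem_SolD]
  simp only [mem_SolD, eventually_all]
  refine forall_congr' fun k => ?_
  have h1 : ∑ i, ∑ j, c k i j • lm (((hom S.u : K →* (UDS S)ˣ) (s j) : (UDS S)ˣ) : UDS S) (mk U0 S.D (y i)) =
      mk U0 S.D (fun n => ∑ i, ∑ j, c k i j • lm (((S.u n (s j) : (S.D n)ˣ) : S.D n)) (y i n)) := by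
    have h2 : (fun n => ∑ i, ∑ j, c k i j • lm (((S.u n (s j) : (S.D n)ˣ) : S.D n)) (y i n)) =
        ∑ i, ∑ j, c k i j • ((fun n => ((S.u n (s j) : (S.D n)ˣ) : S.D n)) * y i) := by
      funext n
      simp only [Finset.sum_apply, Pi.smul_apply, Pi.mul_apply, lm_apply]
    rw [h2, map_sum]
    refine Finset.sum_congr rfl fun i _ => ?_
    rw [map_sum]
    refine Finset.sum_congr rfl fun j _ => ?_
    rw [map_zsmul, map_mul]
    rfl
  rw [h1, mk_eq_zero]

/-- the dimension of the solutions does not go up in the limit -/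
theorem finrank_solF_le [Finite κ] (c : κ → ι → J → ℤ) (s : J → K) :
    ∀ᶠ n in (U0 : Filter ℕ), Module.finrank (S.D n)ᵐᵒᵖ (solF S c s n) ≤ Module.finrank (UDS S)ᵐᵒᵖ (solU S c s) := by
  classical
  by_contra hcon
  rw [← Ultrafilter.eventually_not] at hcon
  set d := Module.finrank (UDS S)ᵐᵒᵖ (solU S c s) with hd
  have h1 : ∀ n, ∃ y : Fin (d + 1) → (ι → S.D n), ¬ Module.finrank (S.D n)ᵐᵒᵖ (solF S c s n) ≤ d →
      (∀ a, y a ∈ solF S c s n) ∧ LinearIndependent (S.D n)ᵐᵒᵖ y := by
    intro n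
    by_cases hn : Module.finrank (S.D n)ᵐᵒᵖ (solF S c s n) ≤ d
    · exact ⟨0, fun h => absurd hn h⟩
    · obtain ⟨f, hf⟩ := exists_linearIndependent_of_le_finrank (R := (S.D n)ᵐᵒᵖ) (M := solF S c s n)
        (n := d + 1) (by omega)
      exact ⟨fun a => (f a : ι → S.D n), fun _ => ⟨fun a => (f a).2, hf.map' (solF S c s n).subtype
        (Submodule.ker_subtype _)⟩⟩
  choose y hy using h1
  let Y : Fin (d + 1) → (ι → UDS S) := fun a i => mk U0 S.D (fun n => y n a i)
  have hY : ∀ a, Y a ∈ solU S c s := by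
    intro a
    refine (mem_solU S (fun i n => y n a i)).2 ?_
    filter_upwards [hcon] with n hn
    exact (hy n hn).1 a
  have hli : LinearIndependent (UDS S)ᵐᵒᵖ Y := by
    rw [Fintype.linearIndependent_iff]
    intro g hg
    choose γ hγ using fun a => mk_surj U0 S.D (g a).unop
    have h2 : ∀ᶠ n in (U0 : Filter ℕ), ∀ i, ∑ a, y n a i * γ a n = 0 := by
      have hfin : ∀ i, ∀ᶠ n in (U0 : Filter ℕ), ∑ a, y n a i * γ a n = 0 := by
        intro i
        have h3 := congrFun hg i
        rw [Finset.sum_apply] at h3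
        have h4 : ∀ a, (g a • Y a) i = mk U0 S.D ((fun n => y n a i) * γ a) := by
          intro a
          rw [map_mul, hγ]
          rfl
        simp only [h4] at h3
        rw [← map_sum, Pi.zero_apply, mk_eq_zero] at h3
        filter_upwards [h3] with n hn
        rw [← hn, Finset.sum_apply]
        rfl
      exact eventually_all.2 hfin
    intro a
    have h5 : ∀ᶠ n in (U0 : Filter ℕ), γ a n = 0 := by
      filter_upwards [h2, hcon] with n hn hn'
      have h6 := Fintype.linearIndependent_iff.1 (hy n hn').2 (fun a => MulOpposite.op (γ a n)) (by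
        funext i
        rw [Finset.sum_apply, Pi.zero_apply, ← hn i]
        rfl) a
      exact (MulOpposite.op_eq_zero_iff _).1 h6
    have h7 : (g a).unop = 0 := by
      rw [← hγ, mk_eq_zero]
      exact h5
    exact (MulOpposite.unop_eq_zero_iff _).1 h7
  have h8 : LinearIndependent (UDS S)ᵐᵒᵖ (fun a => (⟨Y a, hY a⟩ : solU S c s)) :=
    LinearIndependent.of_comp (solU S c s).subtype hli
  have h9 := card_le_sub (solU S c s) _ h8
  rw [Fintype.card_fin] at h9
  omega

end

end SQ.T2
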