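import Pool.Agent.SQ.T2.Asm2
import Pool.Agent.SQ.T2.Transfer
import Pool.Agent.SQ.T2.Cmp
import Pool.Agent.SQ.T2.FG
import Pool.Agent.SQ.Fin

/-!
# SQ, second stage: the vanishing theorem for the groups of the class
-/

set_option autoImplicit false

noncomputable section

namespace SQ.T2

open Filter SQ.Ultra Singer Pool.Agent.Helper18.SQ Pool.Agent.Helper16.Cmp

/-- the groups of the class have no involutions -/
theorem noInv_of_classT {K : Type} [Group K] (hK : ClassT K) (g : K) (hg : g * g = 1) : g = 1 := by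
  obtain ⟨h, N, hN0, hNh, -, -, -, hfree⟩ := hK
  have key : ∀ i, i ≤ h → g ∈ N i → g = 1 := by
    intro i
    induction i with
    | zero =>
      intro _ h1
      rw [hN0] at h1
      exact Subgroup.mem_bot.1 h1
    | succ i ih =>
      intro hi h1
      obtain ⟨C, ψ, hψ⟩ := hfree i hi
      refine ih (by omega) ((hψ ⟨g, h1⟩).1 ?_)
      have h2 : ψ ⟨g, h1⟩ * ψ ⟨g, h1⟩ = 1 := by
        rw [← map_mul]
        have h3 : (⟨g, h1⟩ : N (i + 1)) * ⟨g, h1⟩ = 1 := Subtype.ext hg
        rw [h3, map_one]
      rw [← pow_two] at h2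
      exact (pow_eq_one_iff_left two_ne_zero).1 h2
  refine key h le_rfl ?_
  rw [hNh]
  exact Subgroup.mem_top g

/-- the elements of the group are linearly independent in the Ore field -/
theorem li_of {K : Type} [Group K] (A : Apx K) (c : ℕ) :
    LinearIndependent (ZMod 2) (fun g : A.G c => (((A.O c).u g : (A.O c).Dˣ) : (A.O c).D)) := by
  let L : (A.G c →₀ ZMod 2) →+ (A.O c).D :=
    { toFun := fun x => A.f c (MonoidAlgebra.ofCoeff x)
      map_zero' := by
        show A.f c 0 = 0
        exact map_zero _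
      map_add' := fun x y => by
        show A.f c (MonoidAlgebra.ofCoeff x + MonoidAlgebra.ofCoeff y) = _
        exact map_add _ _ _ }
  have h1 : ((Finsupp.linearCombination (ZMod 2) (fun g : A.G c => (((A.O c).u g : (A.O c).Dˣ) : (A.O c).D)) :
      (A.G c →₀ ZMod 2) →ₗ[ZMod 2] (A.O c).D) : (A.G c →₀ ZMod 2) →+ (A.O c).D) = L := by
    refine Finsupp.addHom_ext fun g a => ?_
    show Finsupp.linearCombination (ZMod 2) (fun g : A.G c => (((A.O c).u g : (A.O c).Dˣ) : (A.O c).D))
      (Finsupp.single g a) = A.f c (MonoidAlgebra.single g a)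
    rw [Finsupp.linearCombination_single, ← A.f_of]
    have h2 : MonoidAlgebra.single g a = a • MonoidAlgebra.of (ZMod 2) (A.G c) g := by
      rw [MonoidAlgebra.of_apply, MonoidAlgebra.smul_single, smul_eq_mul, mul_one]
    rw [h2, ZMod.map_smul (A.f c)]
  intro x y hxy
  have h3 : L x = L y := by
    rw [← h1]
    exact hxy
  have h4 : MonoidAlgebra.ofCoeff x = MonoidAlgebra.ofCoeff y := A.f_inj c h3
  exact congrArg MonoidAlgebra.coeff h4

/-- **the vanishing theorem for the groups of the class** -/
theorem vanE_classT (hLEM : StmtLEM) {K : Type} [Group K] (hK : ClassT K) {n : ℕ} (hn : IsPD n K) (R : FinRes K)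
    (i : ℕ) (hi : 2 * i ≠ n) : R.VanE i := by
  classical
  have hc : Countable K := countable_of_finRes R
  obtain ⟨A, h, N, hnor, hN0, hNh, hle, hlev, hfq⟩ := exists_apx K hK
  let T : Tower K :=
    { D := UDS A.seq
      rho := hom A.seq.u
      star_rho := star_hom A.seq
      h := h
      N := N
      normal := hnor
      N_zero := hN0
      N_top := hNh
      N_le := hle
      level := fun i hi => (hlev i hi).some
      freeq := fun i hi => (hfq i hi).some }
  have h5 := FinSt.vanish hLEM (noInv_of_classT hK) T hn R i hi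
  have h6 : CoV R (fun x => lm (((hom A.seq.u : K →* (UDS A.seq)ˣ) x : (UDS A.seq)ˣ) : UDS A.seq)) i :=
    FinSt.coV_of_ex T.rho R i h5
  refine van_of_bound (D := (UDS A.seq)ᵐᵒᵖ) (M := UDS A.seq) R _ ?_ i h6
  intro κ ι J _ _ _ _ c s W hW
  rw [finrank_op, Nat.cast_one, mul_one]
  refine vdim_le_of_datum c s W hW _ fun S => ?_
  have h7 := finrank_solF_le A.seq c s
  have h8 : ∀ᶠ n in (U0 : Filter ℕ), ∀ g ∈ S, g ≠ 1 → A.p n g ≠ 1 := by
    rw [Filter.eventually_all_finset]
    intro g _
    by_cases hg : g = 1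
    · exact Eventually.of_forall fun _ h9 => absurd hg h9
    · have h10 := A.sep g hg
      rw [← Nat.cofinite_eq_atTop] at h10
      filter_upwards [Filter.hyperfilter_le_cofinite h10] with n hn _
      exact hn
  obtain ⟨m, hm1, hm2⟩ := (h7.and h8).exists
  exact ⟨{ Q := A.G m
           π := A.p m
           sep := hm2
           growth := A.growth m
           D := (A.O m).D
           u := (A.O m).u
           li := li_of A m }, hm1⟩

end SQ.T2
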