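import Pool.Agent.SQ.T2.Closure
import Pool.Agent.SQ.Assembly
import Pool.Agent.SQ.Rep
import Pool.Agent.SQ.Kill

/-!
# SQ, second stage: commutator subgroups of right-angled Coxeter groups are in `ClassT`

The block Toeplitz matrices of a power series with matrix coefficients.
-/

set_option autoImplicit false

open scoped Matrix

namespace SQ.T2

open Singer SQ.Asm

section toep
variable {n : ℕ} (c : ℕ)

/-- the block Toeplitz matrix of a power series -/
noncomputable def toep (f : PowerSeries (Module.End ℤ (Fin n → ℤ))) : Matrix (Fin c × Fin n) (Fin c × Fin n) ℤ :=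
  Matrix.of fun p q => if p.1 ≤ q.1 then LinearMap.toMatrix' (PowerSeries.coeff ((q.1 : ℕ) - p.1) f) p.2 q.2 else 0

variable {c}

lemma toep_apply (f : PowerSeries (Module.End ℤ (Fin n → ℤ))) (p q : Fin c × Fin n) :
    toep c f p q = if p.1 ≤ q.1 then LinearMap.toMatrix' (PowerSeries.coeff ((q.1 : ℕ) - p.1) f) p.2 q.2 else 0 := rfl

lemma toep_one : toep c (1 : PowerSeries (Module.End ℤ (Fin n → ℤ))) = 1 := by
  ext p q
  rw [toep_apply, PowerSeries.coeff_one]
  by_cases h : p.1 ≤ q.1
  · rw [if_pos h]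
    by_cases h1 : (q.1 : ℕ) - p.1 = 0
    · rw [if_pos h1, LinearMap.toMatrix'_one, Matrix.one_apply, Matrix.one_apply]
      have h2 : p.1 = q.1 := by
        apply Fin.ext
        have : (p.1 : ℕ) ≤ q.1 := h
        omega
      by_cases h3 : p.2 = q.2
      · rw [if_pos h3, if_pos (Prod.ext h2 h3)]
      · rw [if_neg h3, if_neg fun h4 => h3 (congrArg Prod.snd h4)]
    · rw [if_neg h1, map_zero, Matrix.one_apply_ne]
      · rfl
      · rintro rfl
        exact h1 (Nat.sub_self _)
  · rw [if_neg h, Matrix.one_apply_ne]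
    rintro rfl
    exact h le_rfl

lemma toep_mul (f g : PowerSeries (Module.End ℤ (Fin n → ℤ))) : toep c (f * g) = toep c f * toep c g := by
  ext p q
  rw [Matrix.mul_apply, Fintype.sum_prod_type]
  have key : ∀ b : Fin c, ∑ u : Fin n, toep c f p (b, u) * toep c g (b, u) q =
      if p.1 ≤ b ∧ b ≤ q.1 then LinearMap.toMatrix' (PowerSeries.coeff ((b : ℕ) - p.1) f *
        PowerSeries.coeff ((q.1 : ℕ) - b) g) p.2 q.2 else 0 := by
    intro b
    by_cases h1 : p.1 ≤ b
    · by_cases h2 : b ≤ q.1
      · rw [if_pos ⟨h1, h2⟩, LinearMap.toMatrix'_mul, Matrix.mul_apply]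
        refine Finset.sum_congr rfl fun u _ => ?_
        rw [toep_apply, toep_apply]
        dsimp only
        rw [if_pos h1, if_pos h2]
      · rw [if_neg fun h => h2 h.2]
        refine Finset.sum_eq_zero fun u _ => ?_
        rw [toep_apply g]
        dsimp only
        rw [if_neg h2, mul_zero]
    · rw [if_neg fun h => h1 h.1]
      refine Finset.sum_eq_zero fun u _ => ?_
      rw [toep_apply f]
      dsimp only
      rw [if_neg h1, zero_mul]
  simp only [key]
  rw [toep_apply]
  by_cases h : p.1 ≤ q.1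
  · have h' : (p.1 : ℕ) ≤ q.1 := h
    rw [if_pos h, PowerSeries.coeff_mul, Finset.Nat.sum_antidiagonal_eq_sum_range_succ_mk, map_sum, Matrix.sum_apply,
      ← Finset.sum_filter]
    refine Finset.sum_bij' (fun k hk => (⟨p.1 + k, by
      have := Finset.mem_range.1 hk
      have := q.1.2
      omega⟩ : Fin c)) (fun b _ => (b : ℕ) - p.1) ?_ ?_ ?_ ?_ ?_
    · intro k hk
      have := Finset.mem_range.1 hk
      refine Finset.mem_filter.2 ⟨Finset.mem_univ _, ?_, ?_⟩
      · show (p.1 : ℕ) ≤ p.1 + k
        omega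
      · show (p.1 : ℕ) + k ≤ q.1
        omega
    · intro b hb
      have h1 : (p.1 : ℕ) ≤ b := (Finset.mem_filter.1 hb).2.1
      have h2 : (b : ℕ) ≤ q.1 := (Finset.mem_filter.1 hb).2.2
      refine Finset.mem_range.2 ?_
      omega
    · intro k hk
      show (p.1 : ℕ) + k - p.1 = k
      omega
    · intro b hb
      have h1 : (p.1 : ℕ) ≤ b := (Finset.mem_filter.1 hb).2.1
      apply Fin.ext
      show (p.1 : ℕ) + (b - p.1) = b
      omega
    · intro k hk
      have := Finset.mem_range.1 hk
      dsimp only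
      have h1 : (p.1 : ℕ) + k - p.1 = k := by omega
      have h2 : (q.1 : ℕ) - (p.1 + k) = q.1 - p.1 - k := by omega
      rw [h1, h2]
  · rw [if_neg h, Finset.sum_eq_zero]
    intro b _
    rw [if_neg]
    rintro ⟨h1, h2⟩
    exact h (h1.trans h2)

/-- the block Toeplitz matrix, indexed by numbers -/
noncomputable def toepF (c : ℕ) : PowerSeries (Module.End ℤ (Fin n → ℤ)) →* Matrix (Fin (c * n)) (Fin (c * n)) ℤ where
  toFun f := Matrix.reindex finProdFinEquiv finProdFinEquiv (toep c f)
  map_one' := by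
    rw [toep_one]
    simp
  map_mul' f g := by
    rw [toep_mul]
    simp [Matrix.submatrix_mul_equiv]

lemma toepF_apply (f : PowerSeries (Module.End ℤ (Fin n → ℤ))) (i j : Fin (c * n)) :
    toepF c f i j = toep c f (finProdFinEquiv.symm i) (finProdFinEquiv.symm j) := rfl

lemma toepF_lt {f : PowerSeries (Module.End ℤ (Fin n → ℤ))} (hf : PowerSeries.coeff 0 f = 1) {i j : Fin (c * n)}
    (h : j < i) : toepF c f i j = 0 := by
  rw [toepF_apply]
  obtain ⟨⟨a, v⟩, rfl⟩ := finProdFinEquiv.surjective i
  obtain ⟨⟨b, w⟩, rfl⟩ := finProdFinEquiv.surjective j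
  rw [Equiv.symm_apply_apply, Equiv.symm_apply_apply, toep_apply]
  dsimp only
  have h1 : (w : ℕ) + n * b < v + n * a := h
  by_cases h2 : a ≤ b
  · have h3 : (a : ℕ) ≤ b := h2
    have h4 : (a : ℕ) = b := by
      by_contra h5
      have h6 : (a : ℕ) + 1 ≤ b := by omega
      have h7 : n * (a + 1) ≤ n * b := Nat.mul_le_mul_left n h6
      have h8 := v.2
      rw [mul_add, mul_one] at h7
      omega
    rw [if_pos h2, ← h4, Nat.sub_self, hf, LinearMap.toMatrix'_one, Matrix.one_apply_ne]
    rintro rfl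
    rw [h4] at h1
    exact lt_irrefl _ h1
  · rw [if_neg h2]

lemma toepF_diag {f : PowerSeries (Module.End ℤ (Fin n → ℤ))} (hf : PowerSeries.coeff 0 f = 1) (i : Fin (c * n)) :
    toepF c f i i = 1 := by
  rw [toepF_apply, toep_apply, if_pos le_rfl, Nat.sub_self, hf, LinearMap.toMatrix'_one, Matrix.one_apply_eq]

lemma coeff_of_toepF {f : PowerSeries (Module.End ℤ (Fin n → ℤ))} {m : ℕ} (h : toepF (m + 1) f = 1) :
    PowerSeries.coeff m f = PowerSeries.coeff m (1 : PowerSeries (Module.End ℤ (Fin n → ℤ))) := by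
  have h1 : toep (m + 1) f = 1 := by
    have h2 : Matrix.reindex finProdFinEquiv finProdFinEquiv (toep (m + 1) f) =
        Matrix.reindex finProdFinEquiv finProdFinEquiv (1 : Matrix (Fin (m + 1) × Fin n) (Fin (m + 1) × Fin n) ℤ) := by
      refine Eq.trans h ?_
      simp
    exact (Matrix.reindex finProdFinEquiv finProdFinEquiv).injective h2
  rw [← toep_one] at h1
  apply LinearMap.toMatrix'.injective
  ext v w
  have h3 := congrFun (congrFun h1 (0, v)) (Fin.last m, w)
  rw [toep_apply, toep_apply] at h3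
  dsimp only at h3
  rw [if_pos (Fin.zero_le _), if_pos (Fin.zero_le _), Fin.val_last, Fin.val_zero, Nat.sub_zero] at h3
  exact h3

end toep

/-- **power series are residually unitriangular** -/
theorem resUT_of_PU {K : Type} [Group K] {n : ℕ} (r : K →* PU (Module.End ℤ (Fin n → ℤ))) : ResUT K r.ker := by
  intro g hg
  have hg' : r g ≠ 1 := hg
  have h1 : ((r g : (PowerSeries (Module.End ℤ (Fin n → ℤ)))ˣ) : PowerSeries (Module.End ℤ (Fin n → ℤ))) ≠ 1 :=
    by
      intro h
      apply hg'
      apply Subtype.ext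
      apply Units.ext
      exact h
  obtain ⟨m, hm⟩ : ∃ m, PowerSeries.coeff m ((r g : (PowerSeries (Module.End ℤ (Fin n → ℤ)))ˣ) : PowerSeries (Module.End ℤ (Fin n → ℤ))) ≠
      PowerSeries.coeff m (1 : PowerSeries (Module.End ℤ (Fin n → ℤ))) := by
    by_contra h
    push Not at h
    exact h1 (PowerSeries.ext h)
  have h0 : ∀ k : K, PowerSeries.coeff 0 ((r k : (PowerSeries (Module.End ℤ (Fin n → ℤ)))ˣ) : PowerSeries (Module.End ℤ (Fin n → ℤ))) = 1 :=
    fun k => (PowerSeries.coeff_zero_eq_constantCoeff_apply _).trans (r k).2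
  refine ⟨(m + 1) * n, (Units.map (toepF (m + 1))).comp ((PU _).subtype.comp r), fun k i j hij => toepF_lt (h0 k) hij,
    fun k i => toepF_diag (h0 k) i, fun k hk => ?_, fun h => ?_⟩
  · rw [MonoidHom.comp_apply, MonoidHom.comp_apply, MonoidHom.mem_ker.1 hk, map_one, map_one]
  · exact hm (coeff_of_toepF (congrArg Units.val h))

/-- the commutator subgroup, vertices numbered -/
theorem classT_fin {n : ℕ} (G : SimpleGraph (Fin n)) : ClassT (commutator (RACG G)) := by
  obtain ⟨ρ, hρ⟩ := s_rep (Fin n) G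
  let Z : ℕ → Set (Fin n) := fun i => {v | (v : ℕ) < i}
  let κ : ℕ → (commutator (RACG G) →* commutator (RACG G)) := fun i =>
    ((kill G (Z i)).comp (commutator (RACG G)).subtype).codRestrict (commutator (RACG G))
      fun g => map_comm (kill G (Z i)) g.2
  have hN : ∀ i (g : commutator (RACG G)), g ∈ (κ i).ker ↔ kill G (Z i) g = 1 := fun i g =>
    ⟨fun h => congrArg Subtype.val (MonoidHom.mem_ker.1 h), fun h => Subtype.ext h⟩
  refine ⟨n, fun i => (κ i).ker, ?_, ?_, fun i => inferInstance, ?_, ?_, ?_⟩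
  · have h1 : Z 0 = ∅ := by
      ext v
      simp [Z]
    rw [eq_bot_iff]
    intro g hg
    have h2 := (hN 0 g).1 hg
    rw [h1, kill_empty, MonoidHom.id_apply] at h2
    rw [Subgroup.mem_bot]
    exact Subtype.ext h2
  · have h1 : Z n = Set.univ := by
      ext v
      simp [Z]
    rw [eq_top_iff]
    intro g _
    refine (hN n g).2 ?_
    rw [h1, kill_univ, MonoidHom.one_apply]
  · intro i g hg
    have h2 := (hN i g).1 hg
    refine (hN (i + 1) g).2 ?_
    have h1 : (kill G (Z (i + 1))).comp (kill G (Z i)) = kill G (Z (i + 1)) :=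
      kill_comp G fun v => by
        simp only [Z, Set.mem_ofPred_eq]
        omega
    rw [← h1, MonoidHom.comp_apply, h2, map_one]
  · intro i _
    have h1 : (κ i).ker = (ρ.comp (κ i)).ker := by
      ext g
      rw [MonoidHom.mem_ker, MonoidHom.mem_ker, MonoidHom.comp_apply]
      exact ⟨fun h => by rw [h, map_one], fun h => hρ (by rw [h, map_one])⟩
    show ResUT _ (κ i).ker
    rw [h1]
    exact resUT_of_PU _
  · intro i hi
    have h1 : (kill G {⟨i, hi⟩}).comp (kill G (Z i)) = kill G (Z (i + 1)) :=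
      kill_comp G fun w => by
        simp only [Z, Set.mem_ofPred_eq, Set.mem_singleton_iff, Fin.ext_iff]
        omega
    obtain ⟨C, φ, hφ⟩ := s_kill (Fin n) G ⟨i, hi⟩
    let ψ0 : (κ (i + 1)).ker →* ((kill G {⟨i, hi⟩}).ker ⊓ commutator (RACG G) : Subgroup (RACG G)) :=
      (((kill G (Z i)).comp (commutator (RACG G)).subtype).comp (κ (i + 1)).ker.subtype).codRestrict _ fun g => by
        refine Subgroup.mem_inf.2 ⟨?_, map_comm (kill G (Z i)) (g : commutator (RACG G)).2⟩
        have h3 := (hN (i + 1) g).1 g.2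
        rw [← h1] at h3
        exact h3
    refine ⟨C, φ.comp ψ0, fun g => ?_⟩
    refine Iff.trans ?_ (hN i g).symm
    rw [MonoidHom.comp_apply]
    constructor
    · intro h3
      have h4 : ψ0 g = 1 := hφ (by rw [h3, map_one])
      exact congrArg Subtype.val h4
    · intro h3
      have h4 : ψ0 g = 1 := Subtype.ext h3
      rw [h4, map_one]

/-- **subgroups of commutator subgroups of right-angled Coxeter groups** -/
theorem classT_of_racg {V : Type} [Fintype V] (G : SimpleGraph V) {K : Type} [Group K]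
    (φ : K →* commutator (RACG G)) (hφ : Function.Injective φ) : ClassT K := by
  classical
  let e : V ≃ Fin (Fintype.card V) := Fintype.equivFin V
  let G' : SimpleGraph (Fin (Fintype.card V)) := G.comap e.symm
  have he : ∀ u v, G.Adj u v ↔ G'.Adj (e u) (e v) := fun u v => by
    show G.Adj u v ↔ G.Adj (e.symm (e u)) (e.symm (e v))
    rw [Equiv.symm_apply_apply, Equiv.symm_apply_apply]
  let f : commutator (RACG G) →* commutator (RACG G') :=
    ((Racg.map e fun u v => (he u v).1).comp (commutator (RACG G)).subtype).codRestrict _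
      fun g => map_comm (Racg.map e fun u v => (he u v).1) g.2
  have hf : Function.Injective f := fun x y hxy =>
    Subtype.ext (Racg.map_injective e e.injective he (congrArg Subtype.val hxy))
  exact (classT_fin G').of_injective (f.comp φ) (hf.comp hφ)

end SQ.T2
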