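import Pool.Agent.SQ.Ring

/-!
# SQ, second stage: groups with a normal series with free factors

`ClassT K`: `K` has a finite series of normal subgroups `N i` with free factors, such that all the quotients `K ⧸ N i` are
residually unitriangular over `ℤ`.
-/

set_option autoImplicit false

namespace SQ.T2

open Filter

/-- `K ⧸ N` is residually unitriangular over `ℤ`: every element outside of `N` has a non-trivial image under some
homomorphism of `K` into a group of upper unitriangular integral matrices which is trivial on `N` -/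
def ResUT (K : Type) [Group K] (N : Subgroup K) : Prop :=
  ∀ g : K, g ∉ N → ∃ (m : ℕ) (π : K →* (Matrix (Fin m) (Fin m) ℤ)ˣ),
    (∀ (k : K) (i j : Fin m), j < i → ((π k : (Matrix (Fin m) (Fin m) ℤ)ˣ) : Matrix (Fin m) (Fin m) ℤ) i j = 0) ∧
    (∀ (k : K) (i : Fin m), ((π k : (Matrix (Fin m) (Fin m) ℤ)ˣ) : Matrix (Fin m) (Fin m) ℤ) i i = 1) ∧
    (∀ k ∈ N, π k = 1) ∧ π g ≠ 1

/-- a finite series of normal subgroups `1 = N 0 ≤ N 1 ≤ ... ≤ N h = K` with free factors (every `N (i + 1) ⧸ N i` embeds in a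
free group) such that every `K ⧸ N i` is residually unitriangular over `ℤ` -/
def ClassT (K : Type) [Group K] : Prop :=
  ∃ (h : ℕ) (N : ℕ → Subgroup K), N 0 = ⊥ ∧ N h = ⊤ ∧ (∀ i, (N i).Normal) ∧ (∀ i, N i ≤ N (i + 1)) ∧
    (∀ i, i < h → ResUT K (N i)) ∧
    ∀ i, i < h → ∃ (C : Type) (ψ : N (i + 1) →* FreeGroup C), ∀ g : N (i + 1), ψ g = 1 ↔ (g : K) ∈ N i

/-- an approximation of `K` by amenable groups with Ore fields of fractions -/
structure Apx (K : Type) [Group K] where
  G : ℕ → Type
  [grp : ∀ c, Group (G c)]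
  growth : ∀ c, PolyGrowth (G c)
  O : ∀ c, OreDiv (G c)
  f : ∀ c, MonoidAlgebra (ZMod 2) (G c) →+* (O c).D
  f_inj : ∀ c, Function.Injective (f c)
  f_of : ∀ c g, f c (MonoidAlgebra.of (ZMod 2) (G c) g) = (((O c).u g : (O c).Dˣ) : (O c).D)
  p : ∀ c, K →* G c
  sep : ∀ g, g ≠ 1 → ∀ᶠ c in atTop, p c g ≠ 1

attribute [instance] Apx.grp

/-- the sequence of division rings of an approximation -/
def Apx.seq {K : Type} [Group K] (A : Apx K) : DivSeq K where
  D c := (A.O c).D
  u c := (A.O c).u.comp (A.p c)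
  star_u c g := by
    rw [MonoidHom.comp_apply, MonoidHom.comp_apply, map_inv (A.p c)]
    exact (A.O c).star_u _

end SQ.T2
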