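import Pool.Agent.SQ.T2.Fin2
import Pool.Agent.SQ.T2.Racg
import Pool.Agent.SQ.RowMain

/-!
# SQ, second stage: the final theorem
-/

set_option autoImplicit false

namespace SQ.T2

open Singer

/-- the vanishing for the Poincare duality groups with a subgroup of finite index in the class -/
theorem vanE_virtual_classT {Γ : Type} [Group Γ] (H : Subgroup Γ) [hH : H.FiniteIndex] (hT : ClassT H) {n : ℕ}
    (hPD : IsPD n Γ ∨ IsPD n H) (R : FinRes Γ) (i : ℕ) (hi : 2 * i ≠ n) : R.VanE i :=
  FinRes.vanE_of_index H (fun R' => vanE_classT lem hT (hPD.elim (fun h => h.of_finiteIndex H) id) R' i hi) R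

/-- a group which embeds in the right-angled Coxeter group of a finite graph has a subgroup of finite index in the class -/
theorem exists_classT {V : Type} [Finite V] (G : SimpleGraph V) {H : Type} [Group H] (φ : H →* RACG G)
    (hφ : Function.Injective φ) : ∃ K : Subgroup H, K.FiniteIndex ∧ ClassT K := by
  classical
  have : Fintype V := Fintype.ofFinite V
  have hfi : (commutator (RACG G)).FiniteIndex := FinSt.finiteIndex_commutator G
  let K : Subgroup H := (commutator (RACG G)).comap φ
  have hK : K.FiniteIndex := ⟨by
    rw [Subgroup.index_comap, Subgroup.relIndex]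
    exact Subgroup.FiniteIndex.index_ne_zero⟩
  let f : K →* commutator (RACG G) := (φ.comp K.subtype).codRestrict (commutator (RACG G)) fun x => x.2
  refine ⟨K, hK, classT_of_racg G f fun x y hxy => ?_⟩
  have h1 : φ (x : H) = φ (y : H) := congrArg Subtype.val hxy
  exact Subtype.ext (hφ h1)

end SQ.T2
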