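import Pool.Agent.SQ.Div

/-!
# SQ, second stage: the Ore field of fractions contains the group ring
-/

set_option autoImplicit false

noncomputable section

namespace SQ.T2

open OreLocalization nonZeroDivisors SQ.Ore

/-- `SQ.s_div` together with the embedding of the group ring -/
theorem s_div2 (G : Type) [Group G] (hdom : NoZeroDivisors (MonoidAlgebra (ZMod 2) G)) (hore : OreG G) :
    ∃ (O : OreDiv G) (f : MonoidAlgebra (ZMod 2) G →+* O.D), Function.Injective f ∧
      ∀ g, f (MonoidAlgebra.of (ZMod 2) G g) = ((O.u g : O.Dˣ) : O.D) := by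
  have ore : ∀ a s : MonoidAlgebra (ZMod 2) G, s ≠ 0 →
      ∃ a' s' : MonoidAlgebra (ZMod 2) G, s' ≠ 0 ∧ s' * a = a' * s := by
    intro a s hs
    obtain ⟨r, q, _, _, hr, h⟩ := hore ⊤ a s (fun _ _ => Subgroup.mem_top _)
      (fun _ _ => Subgroup.mem_top _) hs
    exact ⟨q, r, hr, h⟩
  letI : OreSet (nonZeroDivisors (MonoidAlgebra (ZMod 2) G)) := oreSet _ ore
  letI := starRing (R := MonoidAlgebra (ZMod 2) G) inv' inv'_injective inv'_inv'
  have hfrac := isFrac_loc (MonoidAlgebra (ZMod 2) G)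
  refine ⟨{
    D := (MonoidAlgebra (ZMod 2) G)[(MonoidAlgebra (ZMod 2) G)⁰⁻¹]
    u := ((numeratorRingHom : MonoidAlgebra (ZMod 2) G →+*
      (MonoidAlgebra (ZMod 2) G)[(MonoidAlgebra (ZMod 2) G)⁰⁻¹]).toMonoidHom.comp
        (MonoidAlgebra.of (ZMod 2) G)).toHomUnits
    star_u := ?_
    val := ?_ }, (numeratorRingHom : MonoidAlgebra (ZMod 2) G →+*
      (MonoidAlgebra (ZMod 2) G)[(MonoidAlgebra (ZMod 2) G)⁰⁻¹]), ?_, fun g => rfl⟩
  · intro g
    change (starHom inv' inv'_injective (numeratorRingHom (MonoidAlgebra.of (ZMod 2) G g))).unop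
      = numeratorRingHom (MonoidAlgebra.of (ZMod 2) G g⁻¹)
    rw [starHom_num, inv'_of, MulOpposite.unop_op]
  · intro L _ _ hl hr π
    haveI : MulLeftMono L := ⟨fun d a b h => hl a b d h⟩
    haveI : MulRightMono L := ⟨fun d a b h => hr a b d h⟩
    have hv : IsVal (lead π : MonoidAlgebra (ZMod 2) G → L) := lead_isVal π
    have hinner : ∀ a ∈ subRing (ZMod 2) π.ker, ∀ s ∈ subRing (ZMod 2) π.ker, s ≠ 0 →
        ∃ a' ∈ subRing (ZMod 2) π.ker, ∃ s' ∈ subRing (ZMod 2) π.ker, s' ≠ 0 ∧ s' * a = a' * s := by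
      intro a ha s hs hs0
      obtain ⟨r, q, hr', hq, hr0, h⟩ := hore π.ker a s ((suppIn_iff _ _).2 ha) ((suppIn_iff _ _).2 hs) hs0
      exact ⟨q, (suppIn_iff _ _).1 hq, r, (suppIn_iff _ _).1 hr', hr0, h⟩
    have hvE := ext_isVal hfrac hv
    refine ⟨ext hfrac (lead π), fracSub hfrac (subRing (ZMod 2) π.ker) hinner, hvE.add, ?_, ?_, ?_⟩
    · intro g x hx
      rw [hvE.mul _ _ (Units.ne_zero _) hx]
      congr 1
      have h0 : MonoidAlgebra.of (ZMod 2) G g ≠ 0 := by
        intro h0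
        have := congrArg (fun x => x.coeff g) h0
        simp [MonoidAlgebra.of] at this
      change ext hfrac (lead π) (numeratorRingHom (MonoidAlgebra.of (ZMod 2) G g)) = π g
      rw [ext_num hfrac hv h0, lead_of]
    · intro g hg
      apply closure_le_fracSub hfrac (subRing (ZMod 2) π.ker) hinner
      apply Subfield.subset_closure
      exact ⟨MonoidAlgebra.of (ZMod 2) G g, of_mem_subRing _ hg, rfl⟩
    · intro c hc hc0 x hx
      rw [hvE.mul _ _ hc0 hx, ext_sub hfrac hv _ hinner ?_ hc hc0, one_mul]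
      intro r hr' hr0
      exact lead_subRing π π.ker le_rfl hr' hr0
  · rw [injective_iff_map_eq_zero]
    intro a ha
    by_contra h0
    exact hfrac.ne h0 ha

end SQ.T2
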