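import Pool.Agent.SQ.Ultra

/-!
# SQ, second stage: the levels of the ultraproduct
-/

set_option autoImplicit false

noncomputable section

namespace SQ.T2

open Filter SQ.Ultra

/-- the ultrafilter -/
abbrev U0 : Ultrafilter ℕ := Filter.hyperfilter ℕ

/-- the ultraproduct of a sequence of division rings -/
abbrev UDS {K : Type} [Group K] (S : DivSeq K) : Type := UD U0 S.D

theorem star_hom {K : Type} [Group K] (S : DivSeq K) (g : K) :
    star (((hom S.u : K →* (UDS S)ˣ) g : (UDS S)ˣ) : UDS S) = (((hom S.u : K →* (UDS S)ˣ) g⁻¹ : (UDS S)ˣ) : UDS S) := by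
  rw [hom_val, hom_val, star_mk]
  congr 1
  funext c
  exact S.star_u c g

/-- the levels of the ultraproduct -/
theorem level_UD {K : Type} [Group K] (S : DivSeq K) (N : Subgroup K) (T : SeqLevel S N) :
    Nonempty (Level K (UDS S) (hom S.u) N) := by
  let U : Ultrafilter ℕ := U0
  let act : MulAction K (UL U T.L) :=
    { smul := fun g x => Quotient.map (fun f c => T.π c g * f c)
        (fun f f' (hf : ∀ᶠ c in (U : Filter ℕ), f c = f' c) => hf.mono fun c hc => by
          change T.π c g * f c = T.π c g * f' c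
          rw [hc]) x
      one_smul := by
        intro x
        obtain ⟨f, rfl⟩ := mkL_surj U T.L x
        change mkL U T.L (fun c => T.π c 1 * f c) = mkL U T.L f
        simp
      mul_smul := by
        intro a b x
        obtain ⟨f, rfl⟩ := mkL_surj U T.L x
        change mkL U T.L (fun c => T.π c (a * b) * f c) = mkL U T.L (fun c => T.π c a * (T.π c b * f c))
        simp only [map_mul, mul_assoc] }
  have act_mk : ∀ (g : K) (f : ∀ c, T.L c), g • mkL U T.L f = mkL U T.L (fun c => T.π c g * f c) := fun _ _ => rfl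
  let v : UD U S.D → UL U T.L := fun x => mkL U T.L (fun c => T.v c ((mk_surj U S.D x).choose c))
  have v_mk : ∀ f : ∀ c, S.D c, v (mk U S.D f) = mkL U T.L (fun c => T.v c (f c)) := by
    intro f
    change mkL U T.L _ = _
    rw [mkL_eq]
    filter_upwards [mk_eq.1 (mk_surj U S.D (mk U S.D f)).choose_spec] with c hc
    rw [hc]
  refine ⟨{ Om := UL U T.L, v := v, mono := ?_, free := ?_, v_add := ?_, v_act := ?_, v_sub := ?_ }⟩
  · intro g a b hab
    obtain ⟨f, rfl⟩ := mkL_surj U T.L a
    obtain ⟨f', rfl⟩ := mkL_surj U T.L b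
    rw [act_mk, act_mk, mkL_le]
    rw [mkL_le] at hab
    filter_upwards [hab] with c hc
    exact T.mono c _ _ _ hc
  · intro g a ha
    obtain ⟨f, rfl⟩ := mkL_surj U T.L a
    rw [act_mk, mkL_eq] at ha
    by_contra hg
    have h1 : ∀ᶠ c in (U : Filter ℕ), T.π c g ≠ 1 := by
      have := T.sep g hg
      rw [← Nat.cofinite_eq_atTop] at this
      exact Filter.hyperfilter_le_cofinite this
    obtain ⟨c, hc, hc'⟩ := (ha.and h1).exists
    exact hc' (by simpa using hc)
  · intro x y hx hy hxy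
    obtain ⟨f, rfl⟩ := mk_surj U S.D x
    obtain ⟨f', rfl⟩ := mk_surj U S.D y
    rw [← map_add] at hxy ⊢
    rw [mk_ne_zero] at hx hy hxy
    rw [v_mk, v_mk, v_mk, min_le_iff, mkL_le, mkL_le, ← Ultrafilter.eventually_or]
    filter_upwards [hx, hy, hxy] with c h1 h2 h3
    exact min_le_iff.1 (T.v_add c _ _ h1 h2 h3)
  · intro g x hx
    obtain ⟨f, rfl⟩ := mk_surj U S.D x
    rw [hom_val, ← map_mul, v_mk, v_mk, act_mk, mkL_eq]
    filter_upwards [mk_ne_zero.1 hx] with c hc
    exact T.v_act c g _ hc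
  · intro d hd hd0 x hx
    have hle : Subfield.closure ((fun g : K => (((hom S.u : K →* (UD U S.D)ˣ) g : (UD U S.D)ˣ) : UD U S.D)) ''
        (N : Set K)) ≤ sub T.F := by
      rw [Subfield.closure_le]
      rintro _ ⟨g, hg, rfl⟩
      exact ⟨_, rfl, fun c => T.mem_F c g (T.ker g hg c)⟩
    obtain ⟨k, rfl, hk⟩ := hle hd
    obtain ⟨f, rfl⟩ := mk_surj U S.D x
    rw [← map_mul, v_mk, v_mk, mkL_eq]
    filter_upwards [mk_ne_zero.1 hd0, mk_ne_zero.1 hx] with c h1 h2
    exact T.v_F c _ (hk c) h1 _ h2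


end SQ.T2
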