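import Pool.Agent.SQ.T2.Rep
import Pool.Agent.SQ.T2.Div2
import Pool.Agent.SQ.T2.Ultra2
import Pool.Agent.SQ.Order
import Pool.Agent.SQ.Growth
import Pool.Agent.SQ.Domain
import Pool.Agent.SQ.OreCond
import Pool.Agent.SQ.Free

/-!
# SQ, second stage: the approximation and the tower of a group of the class
-/

set_option autoImplicit false

noncomputable section

namespace SQ.T2

open Filter SQ.Ultra

section
variable (K : Type) [Group K]

/-- the approximation with its tower -/
theorem exists_apx [Countable K] (hK : ClassT K) :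
    ∃ (A : Apx K) (h : ℕ) (N : ℕ → Subgroup K) (_ : ∀ i, (N i).Normal), N 0 = ⊥ ∧ N h = ⊤ ∧ (∀ i, N i ≤ N (i + 1)) ∧
      (∀ i, i < h → Nonempty (Level K (UDS A.seq) (hom A.seq.u) (N i))) ∧
      ∀ i, i < h → Nonempty (FreeQuot K (N i) (N (i + 1))) := by
  classical
  obtain ⟨h, N, hN0, hNh, hnor, hle, hres, hfree⟩ := hK
  obtain ⟨e, he⟩ := exists_surjective_nat K
  have H : ∀ (i m : ℕ), ∃ (n : ℕ) (r : K →* PU (Matrix (Fin n) (Fin n) ℤ)),
      i < h → (∀ k ∈ N i, r k = 1) ∧ (e m ∉ N i → r (e m) ≠ 1) := by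
    intro i m
    by_cases hi : i < h ∧ e m ∉ N i
    · obtain ⟨n, π, h1, h2, h3, h4⟩ := hres i hi.1 (e m) hi.2
      obtain ⟨r, hr⟩ := exists_rep π h1 h2
      exact ⟨n, r, fun _ => ⟨fun k hk => (hr k).2 (h3 k hk), fun _ h5 => h4 ((hr _).1 h5)⟩⟩
    · exact ⟨0, 1, fun h1 => ⟨fun _ _ => rfl, fun h2 => absurd ⟨h1, h2⟩ hi⟩⟩
  choose n r hr using H
  let A : ℕ → Type := fun c => ∀ p : Fin h × Fin c, Matrix (Fin (n p.1 p.2)) (Fin (n p.1 p.2)) ℤ
  let iR : ∀ c, Ring (A c) := fun c => inferInstance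
  have hfin : ∀ c, Module.Finite ℤ (A c) := fun c => inferInstance
  have hfre : ∀ c, Module.Free ℤ (A c) := fun c => inferInstance
  choose Φ hΦ using fun (c : ℕ) (i : Fin h) => exists_pi (K := K)
    (A := fun p : Fin h × Fin c => Matrix (Fin (n p.1 p.2)) (Fin (n p.1 p.2)) ℤ)
    (fun p : Fin h × Fin c => if p.1 = i then r p.1 p.2 else 1)
  have hΦ1 : ∀ c (i : Fin h), ∀ k ∈ N i, Φ c i k = 1 := by
    intro c i k hk
    rw [hΦ]
    intro p
    by_cases hp : p.1 = i
    · rw [if_pos hp]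
      exact (hr p.1 p.2 p.1.2).1 k (by rw [hp]; exact hk)
    · rw [if_neg hp]
      rfl
  have hΦ2 : ∀ c (i : Fin h) (m : Fin c), e m ∉ N i → Φ c i (e m) ≠ 1 := by
    intro c i m hm h1
    rw [hΦ] at h1
    have h2 := h1 (i, m)
    rw [if_pos rfl] at h2
    exact (hr i m i.2).2 hm h2
  have hd : ∀ c, ∃ d : ℕ, ∀ (i : Fin h) (m : Fin c), e m ∉ N i → (QuotientGroup.mk' (PK (A c) d)) (Φ c i (e m)) ≠ 1 := by
    intro c
    have h1 : ∀ (i : Fin h), ∀ᶠ d in atTop, ∀ (m : Fin c), e m ∉ N i →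
        (QuotientGroup.mk' (PK (A c) d)) (Φ c i (e m)) ≠ 1 := by
      intro i
      rw [eventually_all]
      intro m
      by_cases hm : e m ∉ N i
      · filter_upwards [Asm.sep (Φ c i (e m)) (hΦ2 c i m hm)] with d hd _
        exact hd
      · exact Eventually.of_forall fun _ h2 => absurd h2 hm
    exact (eventually_all.2 h1).exists
  choose d hd using hd
  have hdom : ∀ c, NoZeroDivisors (MonoidAlgebra (ZMod 2) (Fin h → UC (A c) (d c))) := fun c =>
    s_domain_of_order s_order (A c) (d c) h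
  have hgr : ∀ c, PolyGrowth (Fin h → UC (A c) (d c)) := fun c => s_growth (A c) (d c) h
  choose O f hf1 hf2 using fun c => s_div2 (Fin h → UC (A c) (d c)) (hdom c) (s_ore _ (hgr c) (hdom c))
  let P : ∀ c, K →* (Fin h → UC (A c) (d c)) := fun c =>
    MonoidHom.pi fun i => (QuotientGroup.mk' (PK (A c) (d c))).comp (Φ c i)
  have hP : ∀ (i : Fin h) (g : K), g ∉ N i → ∀ᶠ c in atTop, (QuotientGroup.mk' (PK (A c) (d c))) (Φ c i g) ≠ 1 := by
    intro i g hg
    obtain ⟨m, rfl⟩ := he g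
    filter_upwards [eventually_gt_atTop m] with c hc
    exact hd c i ⟨m, hc⟩ hg
  let X : Apx K :=
    { G := fun c => Fin h → UC (A c) (d c)
      growth := hgr
      O := O
      f := f
      f_inj := hf1
      f_of := hf2
      p := P
      sep := by
        intro g hg
        have h0 : 0 < h := by
          rw [Nat.pos_iff_ne_zero]
          rintro rfl
          rw [hN0] at hNh
          have h1 : g ∈ (⊥ : Subgroup K) := by
            rw [hNh]
            exact Subgroup.mem_top g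
          exact hg (Subgroup.mem_bot.1 h1)
        have h1 : g ∉ N ((⟨0, h0⟩ : Fin h) : ℕ) := by
          show g ∉ N 0
          rw [hN0]
          exact fun h2 => hg (Subgroup.mem_bot.1 h2)
        filter_upwards [hP ⟨0, h0⟩ g h1] with c hc h2
        exact hc (congrFun h2 ⟨0, h0⟩) }
  choose lo hl using fun c => s_order (A c) (d c)
  have hS : ∀ i, i < h → Nonempty (SeqLevel X.seq (N i)) := by
    intro i hi
    have hval := fun c => @OreDiv.val _ _ (O c) (UC (A c) (d c)) _ (lo c) (hl c).1 (hl c).2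
      (Pi.evalMonoidHom (fun _ : Fin h => UC (A c) (d c)) ⟨i, hi⟩)
    choose v F h1 h2 h3 h4 using hval
    exact ⟨{
      L := fun c => UC (A c) (d c)
      lo := lo
      mono := fun c => (hl c).1
      π := fun c => (QuotientGroup.mk' (PK (A c) (d c))).comp (Φ c ⟨i, hi⟩)
      v := v
      F := F
      v_add := h1
      v_act := fun c g x hx => h2 c (P c g) x hx
      mem_F := fun c g hg => h3 c (P c g) hg
      v_F := h4
      ker := fun g hg c => by
        rw [MonoidHom.comp_apply, hΦ1 c ⟨i, hi⟩ g hg, map_one]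
      sep := fun g hg => hP ⟨i, hi⟩ g hg }⟩
  refine ⟨X, h, N, hnor, hN0, hNh, hle, fun i hi => ?_, fun i hi => ?_⟩
  · obtain ⟨T⟩ := hS i hi
    exact level_UD X.seq (N i) T
  · obtain ⟨C, ψ, hψ⟩ := hfree i hi
    exact s_free K (N i) (N (i + 1)) C ψ (hle i) hψ

end

end SQ.T2
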