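import Pool.Agent.SQ.T2.Defs

/-!
# SQ, second stage: the class `ClassT` is closed under subgroups and finite products
-/

set_option autoImplicit false

namespace SQ.T2

lemma resUT_top (K : Type) [Group K] : ResUT K ⊤ := fun g hg => absurd (Subgroup.mem_top g) hg

lemma ResUT.comap {K K' : Type} [Group K] [Group K'] (f : K' →* K) {N : Subgroup K} (h : ResUT K N) :
    ResUT K' (N.comap f) := by
  intro g hg
  obtain ⟨m, π, h1, h2, h3, h4⟩ := h (f g) hg
  exact ⟨m, π.comp f, fun k i j hij => h1 (f k) i j hij, fun k i => h2 (f k) i, fun k hk => h3 (f k) hk, h4⟩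

lemma ResUT.prod {K K' : Type} [Group K] [Group K'] {N : Subgroup K} {N' : Subgroup K'} (h : ResUT K N)
    (h' : ResUT K' N') : ResUT (K × K') (N.prod N') := by
  intro g hg
  by_cases h1 : g.1 ∈ N
  · have h2 : g.2 ∉ N' := fun h2 => hg (Subgroup.mem_prod.2 ⟨h1, h2⟩)
    obtain ⟨m, π, a1, a2, a3, a4⟩ := h' g.2 h2
    exact ⟨m, π.comp (MonoidHom.snd K K'), fun k i j hij => a1 k.2 i j hij, fun k i => a2 k.2 i,
      fun k hk => a3 k.2 (Subgroup.mem_prod.1 hk).2, a4⟩
  · obtain ⟨m, π, a1, a2, a3, a4⟩ := h g.1 h1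
    exact ⟨m, π.comp (MonoidHom.fst K K'), fun k i j hij => a1 k.1 i j hij, fun k i => a2 k.1 i,
      fun k hk => a3 k.1 (Subgroup.mem_prod.1 hk).1, a4⟩

/-- `B / A` embeds in a free group -/
def FF (K : Type) [Group K] (A B : Subgroup K) : Prop :=
  ∃ (C : Type) (ψ : B →* FreeGroup C), ∀ g : B, ψ g = 1 ↔ (g : K) ∈ A

lemma FF.comap {K K' : Type} [Group K] [Group K'] (f : K' →* K) {A B : Subgroup K} (h : FF K A B) :
    FF K' (A.comap f) (B.comap f) := by
  obtain ⟨C, ψ, h⟩ := h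
  refine ⟨C, ψ.comp ((f.comp (B.comap f).subtype).codRestrict B fun g => g.2), fun g => ?_⟩
  exact h _

lemma FF.prod_left {K K' : Type} [Group K] [Group K'] {A B : Subgroup K} (E : Subgroup K') (h : FF K A B) :
    FF (K × K') (A.prod E) (B.prod E) := by
  obtain ⟨C, ψ, h⟩ := h
  refine ⟨C, ψ.comp (((MonoidHom.fst K K').comp (B.prod E).subtype).codRestrict B
    fun g => (Subgroup.mem_prod.1 g.2).1), fun g => (h _).trans ?_⟩
  exact ⟨fun h1 => Subgroup.mem_prod.2 ⟨h1, (Subgroup.mem_prod.1 g.2).2⟩, fun h1 => (Subgroup.mem_prod.1 h1).1⟩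

lemma FF.prod_right {K K' : Type} [Group K] [Group K'] {A B : Subgroup K'} (E : Subgroup K) (h : FF K' A B) :
    FF (K × K') (E.prod A) (E.prod B) := by
  obtain ⟨C, ψ, h⟩ := h
  refine ⟨C, ψ.comp (((MonoidHom.snd K K').comp (E.prod B).subtype).codRestrict B
    fun g => (Subgroup.mem_prod.1 g.2).2), fun g => (h _).trans ?_⟩
  exact ⟨fun h1 => Subgroup.mem_prod.2 ⟨(Subgroup.mem_prod.1 g.2).1, h1⟩, fun h1 => (Subgroup.mem_prod.1 h1).2⟩

/-- **subgroups** -/
theorem ClassT.of_injective {K K' : Type} [Group K] [Group K'] (f : K' →* K) (hf : Function.Injective f)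
    (h : ClassT K) : ClassT K' := by
  obtain ⟨n, N, h0, h1, h2, h3, h4, h5⟩ := h
  refine ⟨n, fun i => (N i).comap f, ?_, ?_, fun i => (h2 i).comap f, fun i => Subgroup.comap_mono (h3 i),
    fun i hi => (h4 i hi).comap f, fun i hi => FF.comap f (h5 i hi)⟩
  · show (N 0).comap f = ⊥
    rw [h0]
    exact (MonoidHom.ker_eq_bot_iff f).2 hf
  · show (N n).comap f = ⊤
    rw [h1, Subgroup.comap_top]

/-- **finite products** -/
theorem ClassT.prod {K K' : Type} [Group K] [Group K'] (h : ClassT K) (h' : ClassT K') : ClassT (K × K') := by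
  obtain ⟨n, N, h0, h1, h2, h3, h4, h5⟩ := h
  obtain ⟨n', N', h0', h1', h2', h3', h4', h5'⟩ := h'
  have r : ∀ i, i ≤ n → ResUT K (N i) := fun i hi => by
    rcases hi.lt_or_eq with h6 | rfl
    · exact h4 i h6
    · rw [h1]; exact resUT_top K
  have r' : ∀ i, i ≤ n' → ResUT K' (N' i) := fun i hi => by
    rcases hi.lt_or_eq with h6 | rfl
    · exact h4' i h6
    · rw [h1']; exact resUT_top K'
  refine ⟨n + n', fun i => (N (min i n)).prod (N' (i - n)), ?_, ?_, ?_, ?_, ?_, ?_⟩
  · show (N (min 0 n)).prod (N' (0 - n)) = ⊥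
    rw [Nat.zero_min, Nat.zero_sub, h0, h0', Subgroup.bot_prod_bot]
  · show (N (min (n + n') n)).prod (N' (n + n' - n)) = ⊤
    rw [min_eq_right (Nat.le_add_right n n'), Nat.add_sub_cancel_left, h1, h1', Subgroup.top_prod_top]
  · intro i
    have := h2 (min i n)
    have := h2' (i - n)
    exact Subgroup.prod_normal _ _
  · intro i
    show (N (min i n)).prod (N' (i - n)) ≤ (N (min (i + 1) n)).prod (N' (i + 1 - n))
    rcases lt_or_ge i n with h6 | h6
    · rw [min_eq_left h6.le, min_eq_left (Nat.succ_le_of_lt h6), Nat.sub_eq_zero_of_le h6.le,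
        Nat.sub_eq_zero_of_le (Nat.succ_le_of_lt h6)]
      exact Subgroup.prod_mono (h3 i) le_rfl
    · rw [min_eq_right h6, min_eq_right (Nat.le_succ_of_le h6), Nat.succ_sub h6]
      exact Subgroup.prod_mono le_rfl (h3' _)
  · intro i hi
    exact (r _ (min_le_right i n)).prod (r' _ (by omega))
  · intro i hi
    show FF (K × K') ((N (min i n)).prod (N' (i - n))) ((N (min (i + 1) n)).prod (N' (i + 1 - n)))
    rcases lt_or_ge i n with h6 | h6
    · rw [min_eq_left h6.le, min_eq_left (Nat.succ_le_of_lt h6), Nat.sub_eq_zero_of_le h6.le,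
        Nat.sub_eq_zero_of_le (Nat.succ_le_of_lt h6)]
      exact FF.prod_left _ (h5 i h6)
    · rw [min_eq_right h6, min_eq_right (Nat.le_succ_of_le h6), Nat.succ_sub h6]
      exact FF.prod_right _ (h5' _ (by omega))

end SQ.T2
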