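import Pool.Agent.SQ.T2.Defs
import Pool.Agent.SQ.Assembly

/-!
# SQ, second stage: unitriangular matrices and power series
-/

set_option autoImplicit false

namespace SQ.T2

/-- homomorphisms into `PU A` -/
noncomputable def toPU {K A : Type} [Group K] [Ring A] (F : K →* PowerSeries A)
    (h : ∀ k, PowerSeries.constantCoeff (F k) = 1) : K →* PU A :=
  F.toHomUnits.codRestrict (PU A) h

theorem toPU_coe {K A : Type} [Group K] [Ring A] (F : K →* PowerSeries A)
    (h : ∀ k, PowerSeries.constantCoeff (F k) = 1) (k : K) :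
    (((toPU F h k : PU A) : (PowerSeries A)ˣ) : PowerSeries A) = F k := rfl

theorem toPU_eq_one {K A : Type} [Group K] [Ring A] (F : K →* PowerSeries A)
    (h : ∀ k, PowerSeries.constantCoeff (F k) = 1) (k : K) : toPU F h k = 1 ↔ F k = 1 := by
  constructor
  · intro h1
    rw [← toPU_coe F h, h1]
    rfl
  · intro h1
    exact Subtype.ext (Units.ext h1)

section ut
variable {m : ℕ}

/-- the `d`-th superdiagonal -/
def diagPart (M : Matrix (Fin m) (Fin m) ℤ) (d : ℕ) : Matrix (Fin m) (Fin m) ℤ :=
  fun i j => if (j : ℕ) = i + d then M i j else 0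

/-- the power series of a matrix: the `d`-th superdiagonal gets the factor `X ^ d` -/
noncomputable def ser (M : Matrix (Fin m) (Fin m) ℤ) : PowerSeries (Matrix (Fin m) (Fin m) ℤ) :=
  PowerSeries.mk fun d => diagPart M d

theorem ser_one : ser (1 : Matrix (Fin m) (Fin m) ℤ) = 1 := by
  refine PowerSeries.ext fun d => ?_
  rw [ser, PowerSeries.coeff_mk, PowerSeries.coeff_one]
  ext i j
  unfold diagPart
  by_cases hd : d = 0
  · subst hd
    rw [if_pos rfl, add_zero]
    by_cases hij : i = j
    · subst hij
      rw [if_pos rfl]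
    · rw [Matrix.one_apply_ne hij, ite_self]
  · rw [if_neg hd]
    split_ifs with h
    · rw [Matrix.one_apply_ne]
      · rfl
      · rintro rfl
        omega
    · rfl

theorem ser_mul (M M' : Matrix (Fin m) (Fin m) ℤ) (h : ∀ i j : Fin m, j < i → M i j = 0)
    (h' : ∀ i j : Fin m, j < i → M' i j = 0) : ser (M * M') = ser M * ser M' := by
  refine PowerSeries.ext fun d => ?_
  rw [PowerSeries.coeff_mul]
  simp only [ser, PowerSeries.coeff_mk]
  ext i j
  rw [Matrix.sum_apply]
  simp only [Matrix.mul_apply]
  rw [Finset.sum_comm]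
  unfold diagPart
  by_cases hd : (j : ℕ) = i + d
  · rw [if_pos hd, Matrix.mul_apply]
    refine Finset.sum_congr rfl fun l _ => ?_
    by_cases hl : (i : ℕ) ≤ l ∧ (l : ℕ) ≤ j
    · rw [Finset.sum_eq_single (((l : ℕ) - i, (j : ℕ) - l) : ℕ × ℕ)]
      · rw [if_pos (by show (l : ℕ) = i + (l - i); omega), if_pos (by show (j : ℕ) = l + (j - l); omega)]
      · rintro ⟨a, b⟩ _ hab
        by_cases h1 : (l : ℕ) = i + a
        · by_cases h2 : (j : ℕ) = l + b
          · exact absurd (Prod.ext (by show a = (l : ℕ) - i; omega) (by show b = (j : ℕ) - l; omega)) hab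
          · rw [if_neg h2, mul_zero]
        · rw [if_neg h1, zero_mul]
      · intro h1
        exact absurd (Finset.HasAntidiagonal.mem_antidiagonal.2 (by show (l : ℕ) - i + ((j : ℕ) - l) = d; omega)) h1
    · have h3 : M i l * M' l j = 0 := by
        by_cases h4 : (i : ℕ) ≤ l
        · rw [h' l j (by
            show (j : ℕ) < l
            by_contra h5
            exact hl ⟨h4, by omega⟩), mul_zero]
        · rw [h i l (by
            show (l : ℕ) < i
            omega), zero_mul]
      rw [h3]
      symm
      refine Finset.sum_eq_zero ?_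
      rintro ⟨a, b⟩ _
      by_cases h1 : (l : ℕ) = i + a
      · by_cases h2 : (j : ℕ) = l + b
        · exact absurd ⟨by omega, by omega⟩ hl
        · rw [if_neg h2, mul_zero]
      · rw [if_neg h1, zero_mul]
  · rw [if_neg hd]
    symm
    refine Finset.sum_eq_zero fun l _ => Finset.sum_eq_zero ?_
    rintro ⟨a, b⟩ hab
    rw [Finset.HasAntidiagonal.mem_antidiagonal] at hab
    by_cases h1 : (l : ℕ) = i + a
    · by_cases h2 : (j : ℕ) = l + b
      · exact absurd (by
          have hab' : a + b = d := hab
          omega) hd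
      · rw [if_neg h2, mul_zero]
    · rw [if_neg h1, zero_mul]

theorem eq_one_of_ser {M : Matrix (Fin m) (Fin m) ℤ} (h : ∀ i j : Fin m, j < i → M i j = 0) (h1 : ser M = 1) : M = 1 := by
  ext i j
  by_cases hij : (i : ℕ) ≤ j
  · have h2 : PowerSeries.coeff ((j : ℕ) - i) (ser M) = PowerSeries.coeff ((j : ℕ) - i) (ser (1 : Matrix (Fin m) (Fin m) ℤ)) := by
      rw [h1, ser_one]
    rw [ser, ser, PowerSeries.coeff_mk, PowerSeries.coeff_mk] at h2
    have h3 := congrFun (congrFun h2 i) j
    unfold diagPart at h3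
    rwa [if_pos (by omega), if_pos (by omega)] at h3
  · rw [h i j (by show (j : ℕ) < i; omega), Matrix.one_apply_ne]
    rintro rfl
    exact hij le_rfl

/-- the representation over power series of a unitriangular representation -/
theorem exists_rep {K : Type} [Group K] (π : K →* (Matrix (Fin m) (Fin m) ℤ)ˣ)
    (h1 : ∀ (k : K) (i j : Fin m), j < i → ((π k : (Matrix (Fin m) (Fin m) ℤ)ˣ) : Matrix (Fin m) (Fin m) ℤ) i j = 0)
    (h2 : ∀ (k : K) (i : Fin m), ((π k : (Matrix (Fin m) (Fin m) ℤ)ˣ) : Matrix (Fin m) (Fin m) ℤ) i i = 1) :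
    ∃ r : K →* PU (Matrix (Fin m) (Fin m) ℤ), ∀ k, r k = 1 ↔ π k = 1 := by
  let F : K →* PowerSeries (Matrix (Fin m) (Fin m) ℤ) :=
    { toFun := fun k => ser ((π k : (Matrix (Fin m) (Fin m) ℤ)ˣ) : Matrix (Fin m) (Fin m) ℤ)
      map_one' := by rw [map_one, Units.val_one, ser_one]
      map_mul' := fun x y => by rw [map_mul, Units.val_mul, ser_mul _ _ (h1 x) (h1 y)] }
  have hF : ∀ k, PowerSeries.constantCoeff (F k) = 1 := by
    intro k
    show PowerSeries.constantCoeff (ser _) = 1
    rw [← PowerSeries.coeff_zero_eq_constantCoeff_apply, ser, PowerSeries.coeff_mk]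
    ext i j
    unfold diagPart
    by_cases hij : i = j
    · subst hij
      rw [add_zero, if_pos rfl, h2, Matrix.one_apply_eq]
    · rw [if_neg fun h => hij (Fin.ext (by omega)), Matrix.one_apply_ne hij]
  refine ⟨toPU F hF, fun k => ?_⟩
  rw [toPU_eq_one]
  constructor
  · intro h
    exact Units.ext (eq_one_of_ser (h1 k) h)
  · intro h
    show ser _ = 1
    rw [h, Units.val_one, ser_one]

end ut

section pi
variable {P : Type} {A : P → Type} [∀ p, Ring (A p)] {K : Type} [Group K]

/-- families of representations -/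
theorem exists_pi (r : ∀ p, K →* PU (A p)) : ∃ s : K →* PU (∀ p, A p), ∀ k, s k = 1 ↔ ∀ p, r p k = 1 := by
  let F : K →* PowerSeries (∀ p, A p) :=
    { toFun := fun k => PowerSeries.mk fun d p => PowerSeries.coeff d (((r p k : PU (A p)) : (PowerSeries (A p))ˣ) : PowerSeries (A p))
      map_one' := by
        refine PowerSeries.ext fun d => ?_
        rw [PowerSeries.coeff_mk, PowerSeries.coeff_one]
        funext p
        rw [map_one, Subgroup.coe_one, Units.val_one, PowerSeries.coeff_one]
        split_ifs <;> rfl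
      map_mul' := fun x y => by
        refine PowerSeries.ext fun d => ?_
        rw [PowerSeries.coeff_mk, PowerSeries.coeff_mul]
        funext p
        rw [map_mul, Subgroup.coe_mul, Units.val_mul, PowerSeries.coeff_mul, Finset.sum_apply]
        refine Finset.sum_congr rfl fun ab _ => ?_
        rw [PowerSeries.coeff_mk, PowerSeries.coeff_mk]
        rfl }
  have hc : ∀ k d p, PowerSeries.coeff d (F k) p =
      PowerSeries.coeff d (((r p k : PU (A p)) : (PowerSeries (A p))ˣ) : PowerSeries (A p)) := fun k d p =>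
    congrFun (PowerSeries.coeff_mk d fun d p =>
      PowerSeries.coeff d (((r p k : PU (A p)) : (PowerSeries (A p))ˣ) : PowerSeries (A p))) p
  have hF : ∀ k, PowerSeries.constantCoeff (F k) = 1 := by
    intro k
    rw [← PowerSeries.coeff_zero_eq_constantCoeff_apply]
    funext p
    rw [hc, PowerSeries.coeff_zero_eq_constantCoeff_apply]
    exact (r p k).2
  have h1 : ∀ (d : ℕ) (p : P), PowerSeries.coeff d (1 : PowerSeries (∀ p, A p)) p =
      PowerSeries.coeff d (1 : PowerSeries (A p)) := by
    intro d p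
    rw [PowerSeries.coeff_one, PowerSeries.coeff_one]
    split_ifs <;> rfl
  refine ⟨toPU F hF, fun k => ?_⟩
  rw [toPU_eq_one]
  constructor
  · intro h p
    refine Subtype.ext (Units.ext (PowerSeries.ext fun d => ?_))
    rw [← hc, h, h1]
    rfl
  · intro h
    refine PowerSeries.ext fun d => ?_
    funext p
    rw [hc, h p, h1]
    rfl

end pi

end SQ.T2
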